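import Pool.Agent.W5h29.PC.Def
import Pool.Agent.W5h29.LA.Unr
set_option autoImplicit false

/-!
The elements given by the circulations are unramified.
-/

namespace Pool.Agent.W5h29.PC

open Pool.Agent.TH826.MK (KQ symb unitPart Unramified val_le_one_of_integral)

open Pool.Agent.Y797.HC (OU)

open Pool.Agent.W5h29.LA

open scoped WithZero

section loc

variable {L : Type*} [Field L] {v : Valuation L ℤᵐ⁰} {N : ℕ}

theorem sum_mem2 {c : Fin N → Fin N → ℚ} (hc1 : ∀ p q, c q p = -c p q) (hc3 : ∀ q, ∑ p, c p q = 0)
    (s : Fin N → Fin N → KQ L 2) (g : Fin N → KQ L 2)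
    (h : ∀ p q, p ≠ q → s p q - (g p - g q) ∈ unitPart v 2) :
    ∑ p, ∑ q, c p q • s p q ∈ unitPart v 2 := by
  have h0 : ∑ p, ∑ q, c p q • (g p - g q) = 0 := by
    have e1 : ∀ p, ∑ q, c p q = 0 := by
      intro p
      have : ∑ q, c p q = ∑ q, -c q p := Finset.sum_congr rfl fun q _ => by rw [hc1]
      rw [this, Finset.sum_neg_distrib, hc3, neg_zero]
    simp only [smul_sub, Finset.sum_sub_distrib]
    rw [Finset.sum_comm (f := fun p q => c p q • g q)]
    simp only [← Finset.sum_smul, e1, hc3, zero_smul, Finset.sum_const_zero, sub_zero]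
  have h1 : ∑ p, ∑ q, c p q • s p q = ∑ p, ∑ q, c p q • (s p q - (g p - g q)) := by
    have h2 : ∀ p q, c p q • (s p q - (g p - g q)) =
        c p q • s p q - c p q • (g p - g q) := fun _ _ => smul_sub _ _ _
    simp only [h2]
    rw [Finset.sum_congr rfl fun p _ => Finset.sum_sub_distrib _ _, Finset.sum_sub_distrib, h0,
      sub_zero]
  rw [h1]
  refine Submodule.sum_mem _ fun p _ => Submodule.sum_mem _ fun q _ => ?_
  by_cases hd : p = q
  · subst hd
    have h2 : c p p = 0 := by
      have := hc1 p p
      linarith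
    rw [h2, zero_smul]
    exact Submodule.zero_mem _
  · exact Submodule.smul_mem _ _ (h p q hd)

/-- the differences of the values -/
theorem exists_g {D : Dat L N} (hbe : ∀ p, D.be p = 1)
    (hv : ∀ p, v (D.al p) ≤ 1 ∧ v (D.ga p) ≤ 1) (hlam : v D.lam ≤ 1)
    (X : Fin N → Fin N → L) (hX : ∀ p q, v (X p q) ≤ 1)
    (hnode : ∀ p q, D.ga p - D.ga q = (D.al q - D.al p) * X p q) (x y : L)
    (l : Fin N → Lˣ) (hl : ∀ p, (l p : L) = wl D x y p + D.ga p)
    (hprod : D.lam * ∏ p, (l p : L) = 1) (d : Fin N → Fin N → Lˣ)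
    (hd : ∀ p q, p ≠ q → (d p q : L) = D.det2 p q) :
    ∃ g : Fin N → KQ L 2, ∀ p q, p ≠ q →
      (sy (l p) (l q) - sy (l p * (l q)⁻¹) (d p q)) - (g p - g q) ∈ unitPart v 2 := by
  classical
  have hdet : ∀ p q, D.det2 p q = D.al p - D.al q := by
    intro p q
    unfold Dat.det2
    rw [hbe, hbe]
    ring
  have hdiff : ∀ p q, (l p : L) - l q = D.det2 p q * (x - X p q) := by
    intro p q
    have h1 := hnode p q
    rw [hl, hl, hdet]
    unfold wl
    rw [hbe, hbe]
    linear_combination h1
  have hvd : ∀ p q, p ≠ q → v (d p q : L) ≤ 1 := by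
    intro p q hpq
    rw [hd p q hpq, hdet]
    exact (v.map_sub _ _).trans (max_le (hv p).1 (hv q).1)
  by_cases hI : v x ≤ 1 ∧ v y ≤ 1
  · -- the integral points
    have hle : ∀ p, v (l p : L) ≤ 1 := fun p => by
      rw [hl]
      unfold wl
      rw [hbe, one_mul]
      refine (v.map_add _ _).trans (max_le ((v.map_add _ _).trans (max_le ?_ hI.2)) (hv p).2)
      rw [map_mul]
      exact mul_le_one' (hv p).1 hI.1
    have hone : ∀ p, v (l p : L) = 1 := by
      intro p
      refine le_antisymm (hle p) ?_
      have h1 := congrArg v hprod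
      rw [map_one, map_mul, map_prod, ← Finset.mul_prod_erase _ _ (Finset.mem_univ p)] at h1
      rw [← h1]
      calc v D.lam * (v (l p : L) * ∏ q ∈ Finset.univ.erase p, v (l q : L))
          ≤ 1 * (v (l p : L) * 1) := by
            refine mul_le_mul' hlam (mul_le_mul' le_rfl ?_)
            exact Finset.prod_le_one' fun q _ => hle q
        _ = v (l p : L) := by rw [one_mul, mul_one]
    refine ⟨fun _ => 0, fun p q hpq => ?_⟩
    rw [sub_zero, sub_zero]
    refine Submodule.sub_mem _ (sy_mem_unit (hone p) (hone q)) ?_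
    rcases (hvd p q hpq).lt_or_eq with h | h
    · refine sy_mem_left one_ne_zero ?_ _
      rw [pow_one]
      unfold OU
      have e : ((l p * (l q)⁻¹ : Lˣ) : L) - 1 = D.det2 p q * (x - X p q) * (l q : L)⁻¹ := by
        rw [← hdiff, Units.val_mul, Units.val_inv_eq_inv_val]
        have := (l q).ne_zero
        field_simp
      rw [e, map_mul, map_mul, map_inv₀, hone q, inv_one, mul_one, ← hd p q hpq]
      refine mul_lt_one_of_lt_of_le h ?_
      exact (v.map_sub _ _).trans (max_le hI.1 (hX p q))
    · refine sy_mem_unit ?_ h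
      rw [Units.val_mul, Units.val_inv_eq_inv_val, map_mul, map_inv₀, hone p, hone q, inv_one,
        mul_one]
  · by_cases hII : v x < v y ∧ 1 < v y
    · -- the vertical direction
      have hy0 : y ≠ 0 := by
        rintro rfl
        rw [map_zero] at hII
        exact absurd hII.2 (not_lt.2 zero_le)
      have hvy : 0 < v y := zero_lt_one.trans hII.2
      set Y : Lˣ := Units.mk0 y hy0 with hY
      have hOU : ∀ p, OU v ((l p * Y⁻¹ : Lˣ) : L) := by
        intro p
        unfold OU
        have e : ((l p * Y⁻¹ : Lˣ) : L) - 1 = (D.al p * x + D.ga p) * y⁻¹ := by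
          rw [Units.val_mul, Units.val_inv_eq_inv_val, hY, Units.val_mk0, hl]
          unfold wl
          rw [hbe]
          field_simp
          ring
        rw [e, map_mul, map_inv₀, ← div_eq_mul_inv, div_lt_one₀ hvy]
        refine (v.map_add _ _).trans_lt (max_lt ?_ ((hv p).2.trans_lt hII.2))
        rw [map_mul]
        exact (mul_le_of_le_one_left zero_le (hv p).1).trans_lt hII.1
      refine ⟨fun _ => 0, fun p q hpq => ?_⟩
      rw [sub_zero, sub_zero]
      have e1 : l p = Y * (l p * Y⁻¹) := by
        rw [mul_comm (l p), mul_inv_cancel_left]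
      have e2 : l q = Y * (l q * Y⁻¹) := by
        rw [mul_comm (l q), mul_inv_cancel_left]
      have e3 : l p * (l q)⁻¹ = (l p * Y⁻¹) * (l q * Y⁻¹)⁻¹ := by
        rw [mul_inv, inv_inv]
        rw [mul_assoc, mul_comm (l q)⁻¹ Y, inv_mul_cancel_left]
      have h2 : sy (l p) (l q) = sy Y (l q * Y⁻¹) + sy (l p * Y⁻¹) (l q) := by
        conv_lhs => rw [e1, sy_mul_left]
        conv_lhs =>
          enter [1]
          rw [e2, sy_mul_right, sy_self, zero_add]
      have h6 : sy (l p * (l q)⁻¹) (d p q) =
          sy (l p * Y⁻¹) (d p q) - sy (l q * Y⁻¹) (d p q) := by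
        rw [e3, sy_mul_left, sy_inv_left]
        abel
      rw [h2, h6]
      have m1 := fun (p : Fin N) (b : Lˣ) =>
        sy_mem_left (v := v) (a := l p * Y⁻¹) one_ne_zero (by rw [pow_one]; exact hOU p) b
      have m2 := fun (p : Fin N) (b : Lˣ) =>
        sy_mem_right (v := v) (b := l p * Y⁻¹) one_ne_zero (by rw [pow_one]; exact hOU p) b
      exact Submodule.sub_mem _ (Submodule.add_mem _ (m2 q _) (m1 p _))
        (Submodule.sub_mem _ (m1 p _) (m1 q _))
    · -- the other points at infinity
      have hx1 : 1 < v x := by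
        by_contra h
        push Not at h
        have hy1 : 1 < v y := by
          by_contra h'
          push Not at h'
          exact hI ⟨h, h'⟩
        exact hII ⟨h.trans_lt hy1, hy1⟩
      have hx0 : x ≠ 0 := by
        rintro rfl
        rw [map_zero] at hx1
        exact absurd hx1 (not_lt.2 zero_le)
      have hvx : 0 < v x := zero_lt_one.trans hx1
      set x' : Lˣ := Units.mk0 x hx0 with hx'
      set M : Fin N → Lˣ := fun p => l p * x'⁻¹ with hM
      have hlM : ∀ p, l p = x' * M p := by
        intro p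
        simp only [hM]
        rw [mul_comm (l p), mul_inv_cancel_left]
      refine ⟨fun p => sy (M p) x', fun p q hpq => ?_⟩
      -- the principal unit
      have hw : v (-(X p q * x⁻¹)) < 1 := by
        rw [Valuation.map_neg, map_mul, map_inv₀, ← div_eq_mul_inv, div_lt_one₀ hvx]
        exact (hX p q).trans_lt hx1
      have hw0 : 1 - X p q * x⁻¹ ≠ 0 := by
        intro h
        have h1 : X p q * x⁻¹ = 1 := (sub_eq_zero.1 h).symm
        rw [h1, Valuation.map_neg, map_one] at hw
        exact lt_irrefl _ hw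
      set W : Lˣ := Units.mk0 _ hw0 with hW
      have hWOU : OU v (W : L) := by
        unfold OU
        rw [hW, Units.val_mk0]
        have e : 1 - X p q * x⁻¹ - 1 = -(X p q * x⁻¹) := by ring
        rw [e]
        exact hw
      have hMd : (M p : L) - M q = d p q * W := by
        simp only [hM]
        rw [Units.val_mul, Units.val_mul, Units.val_inv_eq_inv_val, hx', Units.val_mk0, ← sub_mul,
          hdiff, hd p q hpq, hW, Units.val_mk0]
        field_simp
      have hst : sy (M p * (d p q * W)⁻¹) (-1 * M q * (d p q * W)⁻¹) = 0 := by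
        refine sy_steinberg ?_
        have h1 : (d p q : L) * W ≠ 0 := mul_ne_zero (d p q).ne_zero W.ne_zero
        push_cast
        field_simp
        linear_combination hMd
      have htl : ∀ b : Lˣ, sy (-1) b = 0 := fun b =>
        sy_tors_left (m := 2) two_ne_zero (by norm_num) b
      have htr : ∀ b : Lˣ, sy b (-1) = 0 := fun b =>
        sy_tors_right (m := 2) two_ne_zero (by norm_num) b
      have h3 : sy (M p) (M q) - sy (M p * (M q)⁻¹) (d p q) = sy (M p * (M q)⁻¹) W := by
        simp only [sy_mul_left, sy_mul_right, sy_inv_left, sy_inv_right, mul_inv, htr, sy_self,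
          zero_add, neg_zero] at hst
        rw [sy_swap (d p q) (M q), sy_swap W (M q), sy_swap W (d p q)] at hst
        simp only [sy_mul_left, sy_inv_left]
        rw [← sub_eq_zero, ← hst]
        abel
      have h4 : l p * (l q)⁻¹ = M p * (M q)⁻¹ := by
        rw [hlM p, hlM q, mul_inv]
        rw [mul_comm x' (M p), mul_assoc, mul_inv_cancel_left]
      have h5 : sy (l p) (l q) - sy (l p * (l q)⁻¹) (d p q) - (sy (M p) x' - sy (M q) x') =
          sy (M p * (M q)⁻¹) W := by
        have gen : ∀ a b c : Lˣ, sy (a * b) (a * c) = sy a c + sy b a + sy b c := by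
          intro a b c
          rw [sy_mul_left, sy_mul_right, sy_mul_right, sy_self]
          abel
        have h6 : sy (l p) (l q) = sy x' (M q) + sy (M p) x' + sy (M p) (M q) := by
          rw [hlM p, hlM q]
          exact gen _ _ _
        rw [h4, ← h3, h6, sy_swap x' (M q)]
        abel
      rw [h5]
      refine sy_mem_right one_ne_zero ?_ _
      rw [pow_one]
      exact hWOU

end loc

section final

/-- The elements given by the circulations are unramified. -/
theorem unramified.{w} {N : ℕ} {D : Dat ℚ N} (hA : Adm D) : UnramifiedSymbols.{0, w} D := by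
  rintro c ⟨hc1, hc2, hc3⟩ L _ f
  rw [map_sum]
  simp only [map_sum, map_smul]
  unfold Unramified
  simp only [Submodule.mem_iInf]
  intro v _
  set k : ℚ →+* L := f.comp (D.fn.comp MvPolynomial.C) with hk
  set x : L := f (D.fn (MvPolynomial.X 0)) with hx
  set y : L := f (D.fn (MvPolynomial.X 1)) with hy
  set l : Fin N → Lˣ := fun p => Units.map (f : D.CRing →* L) (D.u p) with hl
  set d : Fin N → Fin N → Lˣ := fun p q => Units.map (f : D.CRing →* L) (cu D p q) with hd
  have hsy : ∀ p q, KQ.map 2 f (bs D p q) = sy (l p) (l q) - sy (l p * (l q)⁻¹) (d p q) := by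
    intro p q
    unfold bs
    rw [map_sub, KQ.map_symb, KQ.map_symb]
    unfold sy
    congr 2
    · funext i
      fin_cases i <;> rfl
    · funext i
      fin_cases i
      · exact map_mul _ _ _
      · rfl
  simp only [hsy]
  have hlv : ∀ p, (l p : L) = wl (D.map k) x y p + (D.map k).ga p := by
    intro p
    have h1 : (l p : L) = f (D.fn (D.line p)) := rfl
    rw [h1]
    unfold Dat.line wl
    simp only [map_add, map_mul]
    rfl
  have hprod : (D.map k).lam * ∏ p, (l p : L) = 1 := by
    have h1 := congrArg f D.prod_eq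
    rw [map_mul, map_prod, map_one] at h1
    exact h1
  have hval : ∀ z : ℚ, (∃ n : ℤ, z = n) → v (k z) ≤ 1 := by
    rintro z ⟨n, rfl⟩
    exact val_le_one_of_integral v (map_isIntegral_int _ (isIntegral_algebraMap (R := ℤ) (x := n)))
  choose X hX using hA.node
  have hdd : ∀ p q, p ≠ q → (d p q : L) = (D.map k).det2 p q := by
    intro p q hpq
    rw [Dat.det2_map]
    have h0 : D.det2 p q ≠ 0 := by
      unfold Dat.det2
      rw [hA.be, hA.be, mul_one, mul_one, sub_ne_zero]
      exact hA.ne p q hpq
    simp only [hd]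
    unfold cu
    rw [dif_neg h0]
    rfl
  have hbe : ∀ p, (D.map k).be p = 1 := by
    intro p
    show k (D.be p) = 1
    rw [hA.be, map_one]
  have hnode : ∀ p q, (D.map k).ga p - (D.map k).ga q =
      ((D.map k).al q - (D.map k).al p) * k (X p q) := by
    intro p q
    show k (D.ga p) - k (D.ga q) = (k (D.al q) - k (D.al p)) * k (X p q)
    rw [← map_sub, hX, map_mul, map_sub]
  obtain ⟨g, hg⟩ := exists_g (v := v) hbe
    (fun p => ⟨hval _ (hA.al p), hval _ (hA.ga p)⟩) (hval _ hA.lam) (fun p q => k (X p q))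
    (fun p q => hval _ ⟨X p q, rfl⟩) hnode x y l hlv hprod d hdd
  exact sum_mem2 hc1 hc3 _ g hg

end final

end Pool.Agent.W5h29.PC
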