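import Pool.Agent.W5h29.PC.Ind
import Pool.Agent.W5h29.LU.Comb
set_option autoImplicit false

/-!
Positivity of the quadratic form.
-/

namespace Pool.Agent.W5h29.PC

open Pool.Agent.W5h29.LA (Dat)

open Pool.Agent.W5h29.LA.Dat

open Pool.Agent.W5h29.LU (int_of_isIntegral one_le_abs_of_int two_le_abs_of_int)

open Pool.Agent.W5h29.LA.Alg (n2 n2_nonneg dc)

open Alg (Q1)

variable {N : ℕ} {D : Dat ℚ N}

theorem Adm.det2_eq (hA : Adm D) (p q : Fin N) : D.det2 p q = D.al p - D.al q := by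
  unfold Dat.det2
  rw [hA.be, hA.be]
  ring

theorem Adm.det2_int (hA : Adm D) (p q : Fin N) : ∃ n : ℤ, D.det2 p q = n := by
  obtain ⟨m, hm⟩ := hA.al p
  obtain ⟨n, hn⟩ := hA.al q
  exact ⟨m - n, by rw [hA.det2_eq, hm, hn]; push_cast; ring⟩

theorem Adm.det2_ne (hA : Adm D) {p q : Fin N} (h : p ≠ q) : D.det2 p q ≠ 0 := by
  rw [hA.det2_eq, sub_ne_zero]
  exact hA.ne p q h

theorem Adm.det2_ge (hA : Adm D) {p q : Fin N} (h : p ≠ q) : 1 ≤ |D.det2 p q| :=
  one_le_abs_of_int (hA.det2_int p q) (hA.det2_ne h)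

theorem Adm.det3_ge (hA : Adm D) {p q a : Fin N} (h1 : p ≠ q) (h2 : q ≠ a) (h3 : a ≠ p) :
    1 ≤ |D.det3 p q a| := by
  refine le_trans ?_ (hA.sep p q a h1 h2 h3)
  have h4 := hA.det2_ge h1
  have h5 := hA.det2_ge h2
  have h6 := hA.det2_ge h3
  have h7 : 1 * 1 ≤ |D.det2 p q| * |D.det2 q a| := mul_le_mul h4 h5 zero_le_one (by linarith)
  have h8 : 1 * 1 * 1 ≤ |D.det2 p q| * |D.det2 q a| * |D.det2 a p| :=
    mul_le_mul h7 h6 zero_le_one (by linarith)
  linarith

theorem Adm.det3_ne (hA : Adm D) {p q a : Fin N} (h1 : p ≠ q) (h2 : q ≠ a) (h3 : a ≠ p) :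
    D.det3 p q a ≠ 0 := by
  have := hA.det3_ge h1 h2 h3
  intro h
  rw [h, abs_zero] at this
  linarith

theorem Adm.generic (hA : Adm D) : D.Generic := fun _ _ _ hd h1 h2 =>
  hA.det3_ne (ne_of_det2 hd) h2.symm h1

theorem Adm.hdir (hA : Adm D) (hN : 2 ≤ N) (p : Fin N) : ∃ q, D.det2 p q ≠ 0 := by
  have : Nontrivial (Fin N) := Fin.nontrivial_iff_two_le.2 hN
  obtain ⟨q, hq⟩ := exists_ne p
  exact ⟨q, hA.det2_ne hq.symm⟩

/-- the number `|λ| ∏_a |det(L_p, L_q, L_a)| / |α_p - α_q|` -/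
def ksize (D : Dat ℚ N) (p q : Fin N) : ℚ :=
  |D.lam| * ∏ a ∈ (Finset.univ.erase p).erase q, (|D.det3 p q a| / |D.det2 p q|)

theorem Adm.ratio_ge (hA : Adm D) {p q a : Fin N} (h1 : p ≠ q) (h2 : q ≠ a) (h3 : a ≠ p) :
    |D.det2 q a| * |D.det2 a p| ≤ |D.det3 p q a| / |D.det2 p q| := by
  have h4 := hA.det2_ge h1
  rw [le_div_iff₀ (by linarith)]
  have := hA.sep p q a h1 h2 h3
  linarith

theorem Adm.le_det3 (hA : Adm D) {p q a : Fin N} (h1 : p ≠ q) (h2 : q ≠ a) (h3 : a ≠ p) :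
    |D.det2 q a| ≤ |D.det3 p q a| := by
  refine le_trans ?_ (hA.sep p q a h1 h2 h3)
  have h4 := hA.det2_ge h1
  have h5 := hA.det2_ge h2
  have h6 := hA.det2_ge h3
  have h7 : 1 * |D.det2 q a| ≤ |D.det2 p q| * |D.det2 q a| :=
    mul_le_mul_of_nonneg_right h4 (abs_nonneg _)
  have h8 : (1 * |D.det2 q a|) * 1 ≤ |D.det2 p q| * |D.det2 q a| * |D.det2 a p| :=
    mul_le_mul h7 h6 zero_le_one (by linarith)
  linarith

theorem Adm.le_det3' (hA : Adm D) {p q a : Fin N} (h1 : p ≠ q) (h2 : q ≠ a) (h3 : a ≠ p) :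
    |D.det2 a p| ≤ |D.det3 p q a| := by
  refine le_trans ?_ (hA.sep p q a h1 h2 h3)
  have h4 := hA.det2_ge h1
  have h5 := hA.det2_ge h2
  have h7 : 1 * 1 ≤ |D.det2 p q| * |D.det2 q a| :=
    mul_le_mul h4 h5 zero_le_one (by linarith)
  have h8 : (1 * 1) * |D.det2 a p| ≤ |D.det2 p q| * |D.det2 q a| * |D.det2 a p| :=
    mul_le_mul_of_nonneg_right h7 (abs_nonneg _)
  linarith

theorem norm_map (σ : ℚ →+* ℂ) (x : ℚ) : ‖σ x‖ = |((x : ℚ) : ℝ)| := by
  rw [eq_ratCast σ x]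
  exact Complex.norm_ratCast x

/-- the logarithms -/
noncomputable def lq (D : Dat ℚ N) (p q : Fin N) : ℝ := Real.log |((D.det2 p q : ℚ) : ℝ)|

theorem lq_nonneg (hA : Adm D) (p q : Fin N) : 0 ≤ lq D p q := by
  unfold lq
  by_cases h : p = q
  · subst h
    rw [det2_self]
    simp
  · apply Real.log_nonneg
    have := hA.det2_ge h
    exact_mod_cast this

theorem lq_ge (_hA : Adm D) {p q : Fin N} (h : 2 ≤ |D.det2 p q|) : Real.log 2 ≤ lq D p q := by
  unfold lq
  apply Real.log_le_log (by norm_num)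
  exact_mod_cast h

theorem Q1_nonneg (hA : Adm D) (c : Fin N → Fin N → ℝ) : 0 ≤ Q1 c (lq D) :=
  Finset.sum_nonneg fun p _ => Finset.sum_nonneg fun q _ =>
    mul_nonneg (lq_nonneg hA p q) (Finset.sum_nonneg fun _ _ => sq_nonneg _)

/-- the comparison -/
theorem comp (hA : Adm D) {c : Fin N → Fin N → ℝ} (hc : c ∈ D.circ ℝ) :
    3 * (Q1 c (lq D) + N * ∑ p, ∑ q, lq D p q * c p q ^ 2) ≤
      ∑ p, ∑ q, ∑ a, Real.log |((D.det3 p q a : ℚ) : ℝ)| * dc c p q a ^ 2 := by
  obtain ⟨hc1, hc2, hc3⟩ := hc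
  rw [← Alg.weighted c hc1 hc3 (lq D)]
  refine Finset.sum_le_sum fun p _ => Finset.sum_le_sum fun q _ => Finset.sum_le_sum fun a _ => ?_
  have hdiag : ∀ a, c a a = 0 := by
    intro a
    have := hc1 a a
    linarith
  by_cases h1 : p = q
  · subst h1
    have : dc c p p a = 0 := by
      unfold dc
      rw [hdiag, hc1 p a]
      ring
    rw [this]
    simp
  by_cases h2 : q = a
  · subst h2
    have : dc c p q q = 0 := by
      unfold dc
      rw [hdiag, hc1 p q]
      ring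
    rw [this]
    simp
  by_cases h3 : a = p
  · subst h3
    have : dc c a q a = 0 := by
      unfold dc
      rw [hdiag, hc1 a q]
      ring
    rw [this]
    simp
  refine mul_le_mul_of_nonneg_right ?_ (sq_nonneg _)
  have g1 : (0 : ℝ) < |((D.det2 p q : ℚ) : ℝ)| := abs_pos.2 (by exact_mod_cast hA.det2_ne h1)
  have g2 : (0 : ℝ) < |((D.det2 q a : ℚ) : ℝ)| := abs_pos.2 (by exact_mod_cast hA.det2_ne h2)
  have g3 : (0 : ℝ) < |((D.det2 a p : ℚ) : ℝ)| := abs_pos.2 (by exact_mod_cast hA.det2_ne h3)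
  unfold lq
  rw [← Real.log_mul g1.ne' g2.ne', ← Real.log_mul (mul_pos g1 g2).ne' g3.ne']
  refine Real.log_le_log (mul_pos (mul_pos g1 g2) g3) ?_
  exact_mod_cast hA.sep p q a h1 h2 h3

/-- the distance of two rows -/
noncomputable def RR (c : Fin N → Fin N → ℝ) (p q : Fin N) : ℝ := ∑ a, (c q a - c p a) ^ 2

theorem RR_nonneg (c : Fin N → Fin N → ℝ) (p q : Fin N) : 0 ≤ RR c p q :=
  Finset.sum_nonneg fun _ _ => sq_nonneg _

theorem RR_symm (c : Fin N → Fin N → ℝ) (p q : Fin N) : RR c p q = RR c q p :=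
  Finset.sum_congr rfl fun _ _ => by ring

theorem RR_tri (c : Fin N → Fin N → ℝ) (p q r : Fin N) :
    RR c p r ≤ 2 * RR c p q + 2 * RR c q r := by
  unfold RR
  rw [Finset.mul_sum, Finset.mul_sum, ← Finset.sum_add_distrib]
  refine Finset.sum_le_sum fun a _ => ?_
  nlinarith [sq_nonneg ((c r a - c q a) - (c q a - c p a))]

theorem RR_le (c : Fin N → Fin N → ℝ) (p q : Fin N) :
    RR c p q ≤ 2 * ∑ a, c p a ^ 2 + 2 * ∑ a, c q a ^ 2 := by
  unfold RR
  rw [Finset.mul_sum, Finset.mul_sum, ← Finset.sum_add_distrib]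
  refine Finset.sum_le_sum fun a _ => ?_
  nlinarith [sq_nonneg (c q a + c p a)]

/-- one term of the form -/
theorem far_le (hA : Adm D) (c : Fin N → Fin N → ℝ) {p q : Fin N} (h : 2 ≤ |D.det2 p q|) :
    Real.log 2 * RR c p q ≤ Q1 c (lq D) := by
  have h1 : lq D p q * RR c p q ≤ Q1 c (lq D) := by
    have h2 : lq D p q * RR c p q ≤ ∑ q, lq D p q * RR c p q :=
      Finset.single_le_sum (f := fun q => lq D p q * RR c p q)
        (fun q _ => mul_nonneg (lq_nonneg hA p q) (RR_nonneg c p q)) (Finset.mem_univ q)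
    have h3 : ∑ q, lq D p q * RR c p q ≤ Q1 c (lq D) :=
      Finset.single_le_sum (f := fun p => ∑ q, lq D p q * RR c p q)
        (fun p _ => Finset.sum_nonneg fun q _ =>
          mul_nonneg (lq_nonneg hA p q) (RR_nonneg c p q)) (Finset.mem_univ p)
    exact h2.trans h3
  exact (mul_le_mul_of_nonneg_right (lq_ge hA h) (RR_nonneg c p q)).trans h1

/-- the near pairs -/
theorem near_card (hA : Adm D) (p : Fin N) :
    (Finset.univ.filter fun q => p ≠ q ∧ ¬ 2 ≤ |D.det2 p q|).card ≤ 2 := by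
  classical
  have hinj : Function.Injective D.al := by
    intro a b h
    by_contra hab
    exact hA.ne a b hab h
  rw [← Finset.card_image_of_injective _ hinj]
  have hsub : (Finset.univ.filter fun q => p ≠ q ∧ ¬ 2 ≤ |D.det2 p q|).image D.al ⊆
      {D.al p + 1, D.al p - 1} := by
    intro x hx
    obtain ⟨q, hq, rfl⟩ := Finset.mem_image.1 hx
    obtain ⟨-, h1, h2⟩ := Finset.mem_filter.1 hq
    have h3 : |D.det2 p q| = 1 := by
      by_contra h3
      exact h2 (two_le_abs_of_int (hA.det2_int p q) (hA.det2_ne h1) h3)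
    rw [hA.det2_eq] at h3
    rw [Finset.mem_insert, Finset.mem_singleton]
    rcases (abs_eq zero_le_one).1 h3 with h4 | h4
    · right
      linarith
    · left
      linarith
  exact (Finset.card_le_card hsub).trans Finset.card_le_two

/-- positivity for at least five lines -/
theorem pos_many (hA : Adm D) {c : Fin N → Fin N → ℝ} (hc : c ∈ D.circ ℝ) :
    Real.log 2 * ((2 * N - 8) * n2 c) ≤ Q1 c (lq D) := by
  classical
  obtain ⟨hc1, hc2, hc3⟩ := hc
  set B : Fin N → Fin N → ℝ := fun p q => if p ≠ q ∧ ¬ 2 ≤ |D.det2 p q| then 1 else 0 with hB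
  have hB0 : ∀ p q, 0 ≤ B p q := by
    intro p q
    simp only [hB]
    split_ifs <;> norm_num
  have hBs : ∀ p q, B q p = B p q := by
    intro p q
    simp only [hB]
    rw [D.det2_symm q p, abs_neg]
    congr 1
    rw [ne_comm]
  have hBc : ∀ p, ∑ q, B p q ≤ 2 := by
    intro p
    simp only [hB]
    rw [Finset.sum_boole]
    exact_mod_cast near_card hA p
  have h1 : ∀ p q, Real.log 2 * ((1 - B p q) * RR c p q) ≤ lq D p q * RR c p q := by
    intro p q
    have hlog : 0 < Real.log 2 := Real.log_pos (by norm_num)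
    by_cases hpq : p = q
    · subst hpq
      have : RR c p p = 0 := by
        unfold RR
        simp
      rw [this]
      simp
    by_cases h2 : 2 ≤ |D.det2 p q|
    · have : B p q = 0 := if_neg fun h => h.2 h2
      rw [this, sub_zero, one_mul]
      exact mul_le_mul_of_nonneg_right (lq_ge hA h2) (RR_nonneg c p q)
    · have : B p q = 1 := if_pos ⟨hpq, h2⟩
      rw [this, sub_self, zero_mul, mul_zero]
      exact mul_nonneg (lq_nonneg hA p q) (RR_nonneg c p q)
  have h2 : ∑ p, ∑ q, B p q * RR c p q ≤ 8 * n2 c := by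
    have h3 : ∑ p, ∑ q, B p q * RR c p q ≤
        ∑ p, ∑ q, (2 * (B p q * ∑ a, c p a ^ 2) + 2 * (B p q * ∑ a, c q a ^ 2)) := by
      refine Finset.sum_le_sum fun p _ => Finset.sum_le_sum fun q _ => ?_
      have := mul_le_mul_of_nonneg_left (RR_le c p q) (hB0 p q)
      linarith
    have h4 : ∑ p, ∑ q, B p q * ∑ a, c q a ^ 2 = ∑ p, ∑ q, B p q * ∑ a, c p a ^ 2 := by
      rw [Finset.sum_comm]
      refine Finset.sum_congr rfl fun p _ => Finset.sum_congr rfl fun q _ => ?_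
      rw [hBs]
    have h5 : ∑ p, ∑ q, B p q * ∑ a, c p a ^ 2 ≤ 2 * n2 c := by
      unfold n2
      rw [Finset.mul_sum]
      refine Finset.sum_le_sum fun p _ => ?_
      rw [← Finset.sum_mul]
      exact mul_le_mul_of_nonneg_right (hBc p) (Finset.sum_nonneg fun _ _ => sq_nonneg _)
    refine h3.trans ?_
    simp only [Finset.sum_add_distrib, ← Finset.mul_sum]
    rw [h4]
    linarith
  have h3 : ∑ p, ∑ q, RR c p q = 2 * N * n2 c := Alg.sum_rows c hc3
  have h4 : Real.log 2 * (∑ p, ∑ q, (1 - B p q) * RR c p q) ≤ Q1 c (lq D) := by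
    rw [Finset.mul_sum]
    refine Finset.sum_le_sum fun p _ => ?_
    rw [Finset.mul_sum]
    exact Finset.sum_le_sum fun q _ => h1 p q
  refine le_trans (mul_le_mul_of_nonneg_left ?_ (Real.log_pos (by norm_num)).le) h4
  have h5 : ∑ p, ∑ q, (1 - B p q) * RR c p q =
      ∑ p, ∑ q, RR c p q - ∑ p, ∑ q, B p q * RR c p q := by
    simp only [← Finset.sum_sub_distrib, sub_mul, one_mul]
  rw [h5, h3]
  linarith

/-- the two extreme lines -/
theorem extreme (hA : Adm D) (hN : 2 ≤ N) : ∃ p₀ p₁, (N : ℚ) - 1 ≤ D.al p₁ - D.al p₀ ∧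
    (∀ q, D.al p₀ ≤ D.al q) ∧ ∀ q, D.al q ≤ D.al p₁ := by
  classical
  have : Nonempty (Fin N) := ⟨⟨0, by omega⟩⟩
  obtain ⟨p₀, h0⟩ := Finite.exists_min D.al
  obtain ⟨p₁, h1⟩ := Finite.exists_max D.al
  refine ⟨p₀, p₁, ?_, h0, h1⟩
  choose n hn using hA.al
  have hinj : Function.Injective n := by
    intro a b h
    by_contra hab
    apply hA.ne a b hab
    rw [hn, hn, h]
  have h2 : (Finset.univ.image n) ⊆ Finset.Icc (n p₀) (n p₁) := by
    intro x hx
    obtain ⟨q, -, rfl⟩ := Finset.mem_image.1 hx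
    have g0 := h0 q
    have g1 := h1 q
    rw [hn, hn] at g0 g1
    exact Finset.mem_Icc.2 ⟨by exact_mod_cast g0, by exact_mod_cast g1⟩
  have h3 := Finset.card_le_card h2
  rw [Finset.card_image_of_injective _ hinj, Finset.card_univ, Fintype.card_fin, Int.card_Icc] at h3
  have h4 : (N : ℤ) - 1 ≤ n p₁ - n p₀ := by omega
  rw [hn, hn]
  exact_mod_cast h4

/-- the sum of the squares of the rows -/
theorem n2_le (c : Fin N → Fin N → ℝ) (hc3 : ∀ q, ∑ p, c p q = 0) (p₀ : Fin N) :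
    n2 c ≤ ∑ q, RR c p₀ q := by
  have e : ∑ q, RR c p₀ q = n2 c + N * ∑ a, c p₀ a ^ 2 := by
    unfold RR n2
    have e1 : ∑ q, ∑ a, (c q a - c p₀ a) ^ 2 = ∑ q, ∑ a, c q a ^ 2 +
        ∑ _q : Fin N, ∑ a, c p₀ a ^ 2 - 2 * ∑ q, ∑ a, c q a * c p₀ a := by
      simp only [Finset.mul_sum, ← Finset.sum_add_distrib, ← Finset.sum_sub_distrib]
      refine Finset.sum_congr rfl fun q _ => Finset.sum_congr rfl fun a _ => ?_
      ring
    have e2 : ∑ q, ∑ a, c q a * c p₀ a = 0 := by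
      rw [Finset.sum_comm]
      refine Finset.sum_eq_zero fun a _ => ?_
      rw [← Finset.sum_mul, hc3, zero_mul]
    rw [e1, e2, Finset.sum_const, Finset.card_univ, Fintype.card_fin, nsmul_eq_mul]
    ring
  rw [e]
  have : 0 ≤ (N : ℝ) * ∑ a, c p₀ a ^ 2 :=
    mul_nonneg (Nat.cast_nonneg _) (Finset.sum_nonneg fun _ _ => sq_nonneg _)
  linarith

/-- positivity for at least four lines -/
theorem pos_four (hA : Adm D) (hN : 4 ≤ N) {c : Fin N → Fin N → ℝ} (hc : c ∈ D.circ ℝ) :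
    Real.log 2 * n2 c ≤ 4 * N * Q1 c (lq D) := by
  obtain ⟨hc1, hc2, hc3⟩ := hc
  obtain ⟨p₀, p₁, h01, h0, h1⟩ := extreme hA (by omega)
  have hlog : 0 < Real.log 2 := Real.log_pos (by norm_num)
  have hN4 : (4 : ℚ) ≤ N := by exact_mod_cast hN
  have hQ := Q1_nonneg hA c
  have key : ∀ q, Real.log 2 * RR c p₀ q ≤ 4 * Q1 c (lq D) := by
    intro q
    by_cases h : 2 ≤ D.al q - D.al p₀
    · have h2 : 2 ≤ |D.det2 p₀ q| := by
        rw [hA.det2_eq, abs_sub_comm]
        exact h.trans (le_abs_self _)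
      have := far_le hA c h2
      linarith
    · push Not at h
      have h2 : 2 ≤ |D.det2 p₀ p₁| := by
        rw [hA.det2_eq, abs_sub_comm]
        exact le_trans (by linarith) (le_abs_self _)
      have h3 : 2 ≤ |D.det2 p₁ q| := by
        rw [hA.det2_eq]
        have h4 : 1 < D.al p₁ - D.al q := by linarith
        have h5 : D.det2 p₁ q ≠ 0 := by
          rw [hA.det2_eq]
          linarith
        have h6 : |D.det2 p₁ q| ≠ 1 := by
          rw [hA.det2_eq, abs_of_pos (by linarith)]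
          linarith
        rw [← hA.det2_eq]
        exact two_le_abs_of_int (hA.det2_int p₁ q) h5 h6
      have h4 := far_le hA c h2
      have h5 := far_le hA c h3
      have h6 := RR_tri c p₀ p₁ q
      have h7 := mul_le_mul_of_nonneg_left h6 hlog.le
      linarith
  have h2 := mul_le_mul_of_nonneg_left (n2_le c hc3 p₀) hlog.le
  refine h2.trans ?_
  rw [Finset.mul_sum]
  refine (Finset.sum_le_sum fun q _ => key q).trans (le_of_eq ?_)
  rw [Finset.sum_const, Finset.card_univ, Fintype.card_fin, nsmul_eq_mul]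
  ring

/-- three lines -/
theorem RR_three (c : Fin 3 → Fin 3 → ℝ) (hc1 : ∀ p q, c q p = -c p q) (hc3 : ∀ q, ∑ p, c p q = 0)
    {p q : Fin 3} (h : p ≠ q) : RR c p q = n2 c := by
  have h00 : c 0 0 = 0 := by have := hc1 0 0; linarith
  have h11 : c 1 1 = 0 := by have := hc1 1 1; linarith
  have h22 : c 2 2 = 0 := by have := hc1 2 2; linarith
  have h10 := hc1 0 1
  have h20 := hc1 0 2
  have h21 := hc1 1 2
  have s0 := hc3 0
  have s1 := hc3 1
  have s2 := hc3 2
  rw [Fin.sum_univ_three] at s0 s1 s2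
  have e20 : c 2 0 = c 0 1 := by linarith
  have e02 : c 0 2 = -c 0 1 := by linarith
  have e12 : c 1 2 = c 0 1 := by linarith
  have e21 : c 2 1 = -c 0 1 := by linarith
  unfold RR n2
  simp only [Fin.sum_univ_three]
  fin_cases p <;> fin_cases q <;> simp only [Fin.zero_eta, Fin.mk_one, Fin.reduceFinMk] at h ⊢ <;>
    first
    | exact absurd rfl h
    | (rw [h00, h11, h22, h10, e20, e02, e12, e21]; ring)

theorem pos_three {D : Dat ℚ 3} (hA : Adm D) {c : Fin 3 → Fin 3 → ℝ} (hc : c ∈ D.circ ℝ) :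
    Real.log 2 * n2 c ≤ Q1 c (lq D) := by
  obtain ⟨hc1, hc2, hc3⟩ := hc
  obtain ⟨p₀, p₁, h01, -, -⟩ := extreme hA (by omega)
  push_cast at h01
  have h2 : 2 ≤ |D.det2 p₀ p₁| := by
    rw [hA.det2_eq, abs_sub_comm]
    exact le_trans (by linarith) (le_abs_self _)
  have hne : p₀ ≠ p₁ := by
    rintro rfl
    rw [det2_self, abs_zero] at h2
    linarith
  rw [← RR_three c hc1 hc3 hne]
  exact far_le hA c h2

end Pool.Agent.W5h29.PC
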