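import Pool.Agent.W5h29.PC.Smooth
import Pool.Agent.W5h29.PC.Unr
import Pool.Agent.W5h29.LU.Main
set_option autoImplicit false

/-!
The main theorem for explicit members of the family.
-/

namespace Pool.Agent.W5h29.PC

open Pool.Agent.W5h29.LA (Dat)

open Pool.Agent.W5h29.LA.Dat

open Pool.Agent.W5h29.LA.Alg (n2 n2_nonneg dc)

open Pool.Agent.W5h29.LU (prod_ge one_le_abs_of_int two_le_abs_of_int log2_pos)

open Alg (Q1)

variable {N : ℕ} {D : Dat ℚ N} {σ : ℚ →+* ℂ}

/-- independence from positivity -/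
theorem indep_of (hA : Adm D) {η : ℝ} (hη : 0 ≤ η) (hN : (N : ℝ) * η ≤ 1 / 10)
    (hK : ∀ p q, p ≠ q → 1 ≤ η ^ 2 * ((ksize D p q : ℚ) : ℝ)) {δ : ℝ}
    (hpos : ∀ c ∈ D.circ ℝ,
      δ * n2 c ≤ 2 * Real.log |((D.lam : ℚ) : ℝ)| * n2 c + 2 * Q1 c (lq D))
    (hδ : 21 * (N * η) + 33 * (N * η) ^ 2 < δ) : IndependentRegulators D σ := by
  intro c hc hreg
  have hl0 : σ D.lam ≠ 0 := (map_ne_zero σ).2 hA.lam0
  have hK' : ∀ p q, p ≠ q → 1 ≤ η ^ 2 * (‖σ D.lam‖ * ∏ a ∈ oth p q, ‖LU.Aa D σ p q a‖) := by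
    intro p q hpq
    have h2 := hK p q hpq
    unfold ksize at h2
    push_cast at h2
    unfold LU.Aa
    simp only [norm_div, norm_map]
    exact h2
  have h3 := ineq hη hN hl0 (fun p q a h1 h2 h3 => hA.det3_ne h1 h3.symm h2) ?_ ?_ hK' hc hreg
  · simp only [norm_map] at h3
    have h4 := hpos c hc
    have h5 := comp hA hc
    have e : ∑ p, ∑ q, ell D σ p q * c p q ^ 2 = ∑ p, ∑ q, lq D p q * c p q ^ 2 := by
      refine Finset.sum_congr rfl fun p _ => Finset.sum_congr rfl fun q _ => ?_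
      unfold ell lq
      rw [norm_map]
    rw [e] at h3
    apply LU.Alg.eq_zero
    by_contra hneg
    push Not at hneg
    have hp := Real.pi_pos
    have h6 := mul_le_mul_of_nonneg_left h4 hp.le
    have h7 := mul_lt_mul_of_pos_right hδ (mul_pos hp hneg)
    have h8 := mul_le_mul_of_nonneg_left h5 (by positivity : 0 ≤ 2 / 3 * Real.pi)
    nlinarith
  · intro p q a h1 h2 h3
    rw [norm_map, norm_map, D.det2_symm a q]
    have := hA.le_det3 h1 h3.symm h2
    push_cast
    rw [abs_neg]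
    exact_mod_cast this
  · intro p q a h1 h2 h3
    rw [norm_map, norm_map, D.det2_symm p a]
    have := hA.le_det3' h1 h3.symm h2
    push_cast
    rw [abs_neg]
    exact_mod_cast this

theorem lam_ge (hA : Adm D) : 1 ≤ |D.lam| := one_le_abs_of_int hA.lam hA.lam0

theorem log_lam_nonneg (hA : Adm D) : 0 ≤ Real.log |((D.lam : ℚ) : ℝ)| := by
  apply Real.log_nonneg
  have h := lam_ge hA
  exact_mod_cast h

/-- independence, the first case -/
theorem indep_five (hA : Adm D) (hN : 5 ≤ N)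
    (hK : ∀ p q, p ≠ q → 100 * (N : ℚ) ^ 2 ≤ ksize D p q) : IndependentRegulators D σ := by
  refine indep_of hA (η := 1 / (10 * (N : ℝ))) (by positivity) (by rw [LU.mul_eta (by omega)])
    (fun p q hd => LU.eta_ok (by omega) (by exact_mod_cast hK p q hd)) (δ := 4 * Real.log 2) ?_ ?_
  · intro c hc
    have h1 := pos_many hA hc
    have h2 := n2_nonneg c
    have h3 := log_lam_nonneg hA
    have h4 : (5 : ℝ) ≤ N := by exact_mod_cast hN
    have h5 : 2 * n2 c ≤ (2 * N - 8) * n2 c := mul_le_mul_of_nonneg_right (by linarith) h2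
    have h6 := mul_le_mul_of_nonneg_left h5 log2_pos.le
    have h7 := mul_nonneg h3 h2
    linarith
  · rw [LU.mul_eta (by omega)]
    have := Real.log_two_gt_d9
    norm_num
    linarith

/-- independence, the second case -/
theorem indep_four (hA : Adm D) (hN : 3 ≤ N) (hl : 4 ≤ |D.lam|)
    (hK : ∀ p q, p ≠ q → 100 * (N : ℚ) ^ 2 ≤ ksize D p q) : IndependentRegulators D σ := by
  refine indep_of hA (η := 1 / (10 * (N : ℝ))) (by positivity) (by rw [LU.mul_eta (by omega)])
    (fun p q hd => LU.eta_ok (by omega) (by exact_mod_cast hK p q hd)) (δ := 4 * Real.log 2) ?_ ?_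
  · intro c hc
    have h1 := Q1_nonneg hA c
    have h2 := n2_nonneg c
    have h3 : 2 * Real.log 2 ≤ Real.log |((D.lam : ℚ) : ℝ)| := by
      have e : 2 * Real.log 2 = Real.log 4 := by
        rw [show (4 : ℝ) = 2 ^ 2 by norm_num, Real.log_pow]
        push_cast
        ring
      rw [e]
      exact Real.log_le_log (by norm_num) (by exact_mod_cast hl)
    have h4 := mul_le_mul_of_nonneg_right h3 h2
    linarith
  · rw [LU.mul_eta (by omega)]
    have := Real.log_two_gt_d9
    norm_num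
    linarith

/-- independence, the third case -/
theorem indep_small (hA : Adm D) (hN : N = 3 ∨ N = 4)
    (hK : ∀ p q, p ≠ q → 10 ^ 6 ≤ ksize D p q) : IndependentRegulators D σ := by
  have hN0 : (0 : ℝ) ≤ N := Nat.cast_nonneg N
  have hN4 : (N : ℝ) ≤ 4 := by
    rcases hN with h | h <;> rw [h] <;> norm_num
  refine indep_of hA (η := 1 / 10 ^ 3) (by positivity) (by linarith)
    (fun p q hd => ?_) (δ := Real.log 2 / 8) ?_ ?_
  · have h1 : (10 ^ 6 : ℝ) ≤ ((ksize D p q : ℚ) : ℝ) := by exact_mod_cast hK p q hd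
    linarith
  · intro c hc
    have h2 := n2_nonneg c
    have h3 := mul_nonneg (log_lam_nonneg hA) h2
    have h4 := Q1_nonneg hA c
    have h5 : Real.log 2 * n2 c ≤ 16 * Q1 c (lq D) := by
      rcases hN with h | h
      · subst h
        have := pos_three hA hc
        linarith
      · have := pos_four hA (by omega) hc
        have h6 := mul_le_mul_of_nonneg_right hN4 h4
        linarith
    linarith
  · have h1 : (N : ℝ) * (1 / 10 ^ 3) ≤ 4 / 10 ^ 3 := by linarith
    have h2 : 0 ≤ (N : ℝ) * (1 / 10 ^ 3) := by positivity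
    have h3 : ((N : ℝ) * (1 / 10 ^ 3)) ^ 2 ≤ (4 / 10 ^ 3) ^ 2 := pow_le_pow_left₀ h2 h1 2
    have := Real.log_two_gt_d9
    norm_num at h1 h3 ⊢
    linarith

/-- the numbers `n / 2 + 1` -/
theorem prod_bound : ∀ N : ℕ, 9 ≤ N → 10 * N ≤ ∏ j ∈ Finset.range (N - 2), (j / 2 + 1) := by
  intro N hN
  induction N, hN using Nat.le_induction with
  | base =>
    simp [Finset.prod_range_succ]
  | succ N hN ih =>
    have e : N + 1 - 2 = (N - 2) + 1 := by omega
    rw [e, Finset.prod_range_succ]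
    have h1 : 4 ≤ (N - 2) / 2 + 1 := by omega
    have h2 := Nat.mul_le_mul ih h1
    refine le_trans ?_ h2
    omega

/-- the product of the distances -/
theorem prod_dist (hA : Adm D) {p q r : Fin N} (hpq : p ≠ q) (hr : r = p ∨ r = q) :
    ((∏ j ∈ Finset.range (N - 2), (j / 2 + 1) : ℕ) : ℚ) ≤ ∏ a ∈ oth p q, |D.det2 r a| := by
  classical
  choose n hn using hA.al
  have hinj : Function.Injective n := by
    intro a b h
    by_contra hab
    apply hA.ne a b hab
    rw [hn, hn, h]
  have hcast : ∀ a, ((n r - n a).natAbs : ℚ) = |D.det2 r a| := by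
    intro a
    rw [hA.det2_eq, hn, hn, Nat.cast_natAbs]
    push_cast
    rfl
  have hra : ∀ a ∈ oth p q, r ≠ a := by
    intro a ha
    rcases hr with h | h
    · rw [h]
      exact (mem_oth.1 ha).1.symm
    · rw [h]
      exact (mem_oth.1 ha).2.symm
  have h1 := prod_ge (m := 2) (by norm_num) (fun a => (n r - n a).natAbs) (N - 2) (oth p q)
    (card_oth hpq) ?_ ?_
  · have h2 : ((∏ a ∈ oth p q, (n r - n a).natAbs : ℕ) : ℚ) = ∏ a ∈ oth p q, |D.det2 r a| := by
      rw [Nat.cast_prod]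
      exact Finset.prod_congr rfl fun a _ => hcast a
    rw [← h2]
    exact_mod_cast h1
  · intro a ha
    have h2 : n r - n a ≠ 0 := fun h => hra a ha (hinj (sub_eq_zero.1 h))
    exact Int.natAbs_pos.2 h2
  · intro j
    rw [← Finset.card_image_of_injective _ hinj]
    refine (Finset.card_le_card (t := {n r - j, n r + j}) ?_).trans Finset.card_le_two
    intro x hx
    obtain ⟨a, ha, rfl⟩ := Finset.mem_image.1 hx
    have h2 := (Finset.mem_filter.1 ha).2
    rw [Finset.mem_insert, Finset.mem_singleton]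
    omega

/-- many lines -/
theorem size_many (hA : Adm D) (hN : 9 ≤ N) {p q : Fin N} (hpq : p ≠ q) :
    100 * (N : ℚ) ^ 2 ≤ ksize D p q := by
  have h1 := prod_dist hA hpq (Or.inr rfl)
  have h2 := prod_dist hA hpq (Or.inl rfl)
  have h3 : (10 * (N : ℚ)) ≤ ((∏ j ∈ Finset.range (N - 2), (j / 2 + 1) : ℕ) : ℚ) := by
    exact_mod_cast prod_bound N hN
  have h4 : (10 * (N : ℚ)) * (10 * N) ≤ (∏ a ∈ oth p q, |D.det2 q a|) * ∏ a ∈ oth p q, |D.det2 p a| :=
    mul_le_mul (h3.trans h1) (h3.trans h2) (by positivity)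
      (Finset.prod_nonneg fun _ _ => abs_nonneg _)
  rw [← Finset.prod_mul_distrib] at h4
  have h5 : ∏ a ∈ oth p q, |D.det2 q a| * |D.det2 p a| ≤
      ∏ a ∈ oth p q, (|D.det3 p q a| / |D.det2 p q|) := by
    refine Finset.prod_le_prod (fun _ _ => mul_nonneg (abs_nonneg _) (abs_nonneg _)) fun a ha => ?_
    have h6 := hA.ratio_ge hpq (mem_oth.1 ha).2.symm (mem_oth.1 ha).1
    rwa [D.det2_symm a p, abs_neg] at h6
  have h6 : ∏ a ∈ oth p q, (|D.det3 p q a| / |D.det2 p q|) ≤ ksize D p q := by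
    refine le_mul_of_one_le_left (Finset.prod_nonneg fun _ _ => ?_) (lam_ge hA)
    positivity
  nlinarith

/-- the conclusions -/
def Holds.{v} {N : ℕ} (D : Dat ℚ N) : Prop :=
  IsDomain D.CRing ∧ (∀ σ : ℚ →+* ℂ, SmoothCurve D σ) ∧ UnramifiedSymbols.{0, v} D ∧
    2 * Module.finrank ℚ (D.circ ℚ) = (N - 1) * (N - 2) ∧ ∀ σ : ℚ →+* ℂ, IndependentRegulators D σ

/-- the number of the pairs -/
theorem edges_eq (hA : Adm D) : 2 * D.edges = N * (N - 1) := by
  classical
  unfold Dat.edges
  have e : {e : Fin N × Fin N | e.1 < e.2 ∧ D.det2 e.1 e.2 ≠ 0} =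
      ((Finset.univ.filter fun e : Fin N × Fin N => e.1 < e.2 : Finset (Fin N × Fin N)) :
        Set (Fin N × Fin N)) := by
    ext e
    simp only [Set.mem_ofPred_eq, Finset.coe_filter, Finset.mem_univ, true_and]
    exact ⟨fun h => h.1, fun h => ⟨h, hA.det2_ne h.ne⟩⟩
  rw [e, Set.ncard_coe_finset]
  have h1 : (Finset.univ.filter fun e : Fin N × Fin N => e.1 < e.2).card =
      (Finset.univ.filter fun e : Fin N × Fin N => e.2 < e.1).card := by
    refine Finset.card_bij (fun e _ => (e.2, e.1)) ?_ ?_ ?_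
    · intro e he
      simpa using he
    · rintro ⟨a, b⟩ _ ⟨c, d⟩ _ h
      simp only [Prod.mk.injEq] at h
      exact Prod.ext h.2 h.1
    · rintro ⟨a, b⟩ h
      exact ⟨(b, a), by simpa using h, rfl⟩
  have h2 : (Finset.univ.filter fun e : Fin N × Fin N => e.1 < e.2).card +
      (Finset.univ.filter fun e : Fin N × Fin N => e.2 < e.1).card + N = N * N := by
    have h3 : (Finset.univ.filter fun e : Fin N × Fin N => e.1 = e.2).card = N := by
      have h4 : (Finset.univ.filter fun e : Fin N × Fin N => e.1 = e.2) =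
          (Finset.univ : Finset (Fin N)).image fun a => (a, a) := by
        ext ⟨a, b⟩
        simp only [Finset.mem_filter, Finset.mem_univ, true_and, Finset.mem_image, Prod.mk.injEq]
        exact ⟨fun h => ⟨a, rfl, h⟩, fun ⟨x, h1, h2⟩ => h1.symm.trans h2⟩
      rw [h4, Finset.card_image_of_injective _ fun a b h => (Prod.mk.inj h).1, Finset.card_univ,
        Fintype.card_fin]
    have h4 : (Finset.univ : Finset (Fin N × Fin N)).card = N * N := by
      rw [Finset.card_univ, Fintype.card_prod, Fintype.card_fin]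
    have h5 : (Finset.univ : Finset (Fin N × Fin N)) =
        ((Finset.univ.filter fun e : Fin N × Fin N => e.1 < e.2) ∪
          (Finset.univ.filter fun e : Fin N × Fin N => e.2 < e.1)) ∪
          Finset.univ.filter fun e : Fin N × Fin N => e.1 = e.2 := by
      ext ⟨a, b⟩
      simp only [Finset.mem_union, Finset.mem_filter, Finset.mem_univ, true_and, true_iff]
      rcases lt_trichotomy a b with h | h | h
      · exact Or.inl (Or.inl h)
      · exact Or.inr h
      · exact Or.inl (Or.inr h)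
    rw [← h4]
    conv_rhs => rw [h5]
    rw [Finset.card_union_of_disjoint, Finset.card_union_of_disjoint, h3]
    · rw [Finset.disjoint_left]
      intro e h h'
      exact lt_asymm (Finset.mem_filter.1 h).2 (Finset.mem_filter.1 h').2
    · rw [Finset.disjoint_left]
      intro e h h'
      have h6 := (Finset.mem_filter.1 h').2
      rcases Finset.mem_union.1 h with h | h
      · exact absurd h6 (Finset.mem_filter.1 h).2.ne
      · exact absurd h6 (Finset.mem_filter.1 h).2.ne'
  rw [← h1] at h2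
  rw [Nat.mul_sub, mul_one]
  omega

theorem holds_of.{v} (hA : Adm D) (hN : 3 ≤ N)
    (hK : 9 ≤ N ∨ (∀ p q, p ≠ q → 10 ^ 6 ≤ ksize D p q) ∨
      ((5 ≤ N ∨ 4 ≤ |D.lam|) ∧ ∀ p q, p ≠ q → 100 * (N : ℚ) ^ 2 ≤ ksize D p q)) :
    Holds.{v} D := by
  have key : (∀ p q, p ≠ q → 100 * (N : ℚ) ^ 2 ≤ ksize D p q) ∧
      ∀ σ : ℚ →+* ℂ, IndependentRegulators D σ := by
    by_cases h9 : 9 ≤ N
    · have h : ∀ p q, p ≠ q → 100 * (N : ℚ) ^ 2 ≤ ksize D p q := fun p q hpq =>
        size_many hA h9 hpq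
      exact ⟨h, fun σ => indep_five hA (by omega) h⟩
    rcases hK with h | h | ⟨h | h, h'⟩
    · exact absurd h h9
    · have h' : ∀ p q, p ≠ q → 100 * (N : ℚ) ^ 2 ≤ ksize D p q := by
        intro p q hpq
        refine le_trans ?_ (h p q hpq)
        have h1 : (N : ℚ) ≤ 8 := by
          have : N ≤ 8 := by omega
          exact_mod_cast this
        have h2 : (0 : ℚ) ≤ N := Nat.cast_nonneg N
        nlinarith
      refine ⟨h', fun σ => ?_⟩
      by_cases h5 : 5 ≤ N
      · exact indep_five hA h5 h'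
      · exact indep_small hA (by omega) h
    · exact ⟨h', fun σ => indep_five hA h h'⟩
    · exact ⟨h', fun σ => indep_four hA hN h h'⟩
  have h1 := Dat.finrank_circ (hA.hdir (by omega)) (⟨0, by omega⟩ : Fin N)
  have h2 := edges_eq hA
  refine ⟨Dat.isDomain hA.generic (hA.hdir (by omega)) hA.lam0 ⟨0, by omega⟩,
    fun σ => smooth hA (by omega) key.1, unramified hA, ?_, key.2⟩
  obtain ⟨n, rfl⟩ : ∃ n, N = n + 3 := ⟨N - 3, by omega⟩
  have e1 : n + 3 - 1 = n + 2 := by omega
  have e2 : n + 3 - 2 = n + 1 := by omega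
  rw [e1] at h2
  rw [e1, e2]
  nlinarith

end Pool.Agent.W5h29.PC
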