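import Pool.Agent.W5h29.LU.Alg
set_option autoImplicit false

/-!
The linear algebra of the regulator matrix, with corrected symbols.
-/

namespace Pool.Agent.W5h29.PC.Alg

open Pool.Agent.W5h29.LA.Alg (n2 n2_nonneg dc sum_dc sum_T err1 err2 split_sum sum3_a sum3_b sum3_c cyc)

variable {N : ℕ}

theorem row_zero {c : Fin N → Fin N → ℝ} (hc : ∀ a b, c b a = -c a b) (h0 : ∀ q, ∑ p, c p q = 0)
    (p : Fin N) : ∑ q, c p q = 0 := by
  have h1 := h0 p
  rw [← neg_eq_zero, ← Finset.sum_neg_distrib] at h1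
  rw [← h1]
  exact Finset.sum_congr rfl fun q _ => hc q p

/-- the main inequality -/
theorem main (c : Fin N → Fin N → ℝ) (hc : ∀ a b, c b a = -c a b) (h0 : ∀ q, ∑ p, c p q = 0)
    (T : Fin N → Fin N → Fin N → ℝ) (hT : ∀ p q a, T q a p = T p q a)
    (l : Fin N → Fin N → ℝ)
    {κ ε₁ ε₂ : ℝ} (hε₁ : 0 ≤ ε₁) (hε₂ : 0 ≤ ε₂)
    (hloc : ∀ p q, c p q ≠ 0 → ∃ (e : Fin N → ℝ) (F : Fin N → Fin N → ℝ),
      (∀ a, a ≠ p → a ≠ q → |e a + 2 * Real.pi * (T p q a - l p q)| ≤ ε₁) ∧
      (∀ a b, a ≠ p → a ≠ q → b ≠ p → b ≠ q → |F a b| ≤ ε₂) ∧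
      κ * c p q - ∑ a ∈ (Finset.univ.erase p).erase q, e a * dc c p q a +
      ∑ a ∈ (Finset.univ.erase p).erase q, ∑ b ∈ (Finset.univ.erase p).erase q,
        (c q a + 1 / 2 * c a b) * F a b +
      2 * Real.pi * (∑ b, c p b * l p b - ∑ b, c q b * l q b) = 0) :
    κ * n2 c + 2 / 3 * Real.pi * ∑ p, ∑ q, ∑ a, T p q a * dc c p q a ^ 2 -
      2 * Real.pi * N * ∑ p, ∑ q, l p q * c p q ^ 2 ≤
      ε₁ * (3 * N * n2 c) + ε₂ * (3 / 2 * N ^ 2 * n2 c) := by
  have hrow := row_zero hc h0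
  have hdiag : ∀ a, c a a = 0 := by
    intro a
    have := hc a a
    linarith
  have hdp : ∀ p q, dc c p q p = 0 := by
    intro p q
    unfold dc
    rw [hdiag, hc p q]
    ring
  have hdq : ∀ p q, dc c p q q = 0 := by
    intro p q
    unfold dc
    rw [hdiag, hc p q]
    ring
  have hdsum : ∀ p q, ∑ a, dc c p q a = N * c p q := by
    intro p q
    unfold dc
    rw [Finset.sum_add_distrib, Finset.sum_add_distrib, hrow q, h0 p, Finset.sum_const,
      Finset.card_univ, Fintype.card_fin, nsmul_eq_mul]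
    ring
  set r : Fin N → ℝ := fun p => ∑ b, c p b * l p b with hr
  have key : ∀ p q, κ * c p q ^ 2 + 2 * Real.pi * ∑ a, T p q a * c p q * dc c p q a -
      2 * Real.pi * N * (l p q * c p q ^ 2) + 2 * Real.pi * (c p q * r p - c p q * r q) ≤
      ε₁ * ∑ a, |c p q| * |dc c p q a| + ε₂ * ∑ a, ∑ b, |c p q| * (|c q a| + 1 / 2 * |c a b|) := by
    intro p q
    by_cases hcpq : c p q = 0
    · simp [hcpq]
    obtain ⟨e, F, he, hF, heq⟩ := hloc p q hcpq
    have hpq : p ≠ q := by
      rintro rfl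
      exact hcpq (hdiag p)
    set A : Finset (Fin N) := (Finset.univ.erase p).erase q with hAdef
    have hmem : ∀ a ∈ A, a ≠ p ∧ a ≠ q := by
      intro a ha
      rw [hAdef, Finset.mem_erase, Finset.mem_erase] at ha
      exact ⟨ha.2.1, ha.1⟩
    have h1 : ∑ a, T p q a * c p q * dc c p q a = ∑ a ∈ A, T p q a * c p q * dc c p q a := by
      rw [split_sum hpq, hdp, hdq, mul_zero, mul_zero, zero_add, zero_add]
    have h1' : ∑ a ∈ A, dc c p q a = N * c p q := by
      rw [← hdsum, split_sum hpq, hdp, hdq, zero_add, zero_add]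
    have h2 := congrArg (fun x => c p q * x) heq
    simp only [mul_zero] at h2
    have h3 : κ * c p q ^ 2 + 2 * Real.pi * ∑ a ∈ A, T p q a * c p q * dc c p q a -
        2 * Real.pi * N * (l p q * c p q ^ 2) + 2 * Real.pi * (c p q * r p - c p q * r q) =
        ∑ a ∈ A, c p q * ((e a + 2 * Real.pi * (T p q a - l p q)) * dc c p q a) -
          c p q * ∑ a ∈ A, ∑ b ∈ A, (c q a + 1 / 2 * c a b) * F a b := by
      have h4 : ∑ a ∈ A, c p q * ((e a + 2 * Real.pi * (T p q a - l p q)) * dc c p q a) =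
          c p q * ∑ a ∈ A, e a * dc c p q a +
            2 * Real.pi * ∑ a ∈ A, T p q a * c p q * dc c p q a -
            2 * Real.pi * l p q * c p q * ∑ a ∈ A, dc c p q a := by
        rw [Finset.mul_sum, Finset.mul_sum, Finset.mul_sum, ← Finset.sum_add_distrib,
          ← Finset.sum_sub_distrib]
        refine Finset.sum_congr rfl fun a _ => ?_
        ring
      rw [h4, h1']
      simp only [hr]
      linarith
    have h5 : ∑ a ∈ A, c p q * ((e a + 2 * Real.pi * (T p q a - l p q)) * dc c p q a) ≤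
        ε₁ * ∑ a, |c p q| * |dc c p q a| := by
      calc _ ≤ ∑ a ∈ A, ε₁ * (|c p q| * |dc c p q a|) := by
            refine Finset.sum_le_sum fun a ha => ?_
            refine (le_abs_self _).trans ?_
            rw [abs_mul, abs_mul]
            have h6 := he a (hmem a ha).1 (hmem a ha).2
            have h7 := mul_le_mul_of_nonneg_right h6
              (mul_nonneg (abs_nonneg (c p q)) (abs_nonneg (dc c p q a)))
            linarith
        _ ≤ ∑ a, ε₁ * (|c p q| * |dc c p q a|) :=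
            Finset.sum_le_sum_of_subset_of_nonneg (Finset.subset_univ _) fun a _ _ => by positivity
        _ = _ := by rw [Finset.mul_sum]
    have h6 : -(c p q * ∑ a ∈ A, ∑ b ∈ A, (c q a + 1 / 2 * c a b) * F a b) ≤
        ε₂ * ∑ a, ∑ b, |c p q| * (|c q a| + 1 / 2 * |c a b|) := by
      calc _ ≤ ∑ a ∈ A, ∑ b ∈ A, ε₂ * (|c p q| * (|c q a| + 1 / 2 * |c a b|)) := by
            rw [Finset.mul_sum, ← Finset.sum_neg_distrib]
            refine Finset.sum_le_sum fun a ha => ?_
            rw [Finset.mul_sum, ← Finset.sum_neg_distrib]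
            refine Finset.sum_le_sum fun b hb => ?_
            refine (neg_le_abs _).trans ?_
            rw [abs_mul, abs_mul]
            have h6 := hF a b (hmem a ha).1 (hmem a ha).2 (hmem b hb).1 (hmem b hb).2
            have h7 : |c q a + 1 / 2 * c a b| ≤ |c q a| + 1 / 2 * |c a b| := by
              refine (abs_add_le _ _).trans ?_
              rw [abs_mul, abs_of_pos (by norm_num : (0 : ℝ) < 1 / 2)]
            have h8 : |c q a + 1 / 2 * c a b| * |F a b| ≤ (|c q a| + 1 / 2 * |c a b|) * ε₂ :=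
              mul_le_mul h7 h6 (abs_nonneg _) (by positivity)
            have h9 := mul_le_mul_of_nonneg_left h8 (abs_nonneg (c p q))
            linarith
        _ ≤ ∑ a, ∑ b, ε₂ * (|c p q| * (|c q a| + 1 / 2 * |c a b|)) := by
            refine (Finset.sum_le_sum fun a _ =>
              Finset.sum_le_sum_of_subset_of_nonneg (Finset.subset_univ _) fun b _ _ => ?_).trans
                (Finset.sum_le_sum_of_subset_of_nonneg (Finset.subset_univ _) fun a _ _ => ?_)
            · positivity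
            · exact Finset.sum_nonneg fun b _ => by positivity
        _ = _ := by simp only [Finset.mul_sum]
    rw [h1, h3]
    linarith
  have hz : ∑ p, ∑ q, (c p q * r p - c p q * r q) = 0 := by
    have e1 : ∑ p, ∑ q, c p q * r p = 0 := by
      refine Finset.sum_eq_zero fun p _ => ?_
      rw [← Finset.sum_mul, hrow, zero_mul]
    have e2 : ∑ p, ∑ q, c p q * r q = 0 := by
      rw [Finset.sum_comm]
      refine Finset.sum_eq_zero fun q _ => ?_
      rw [← Finset.sum_mul, h0, zero_mul]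
    simp only [Finset.sum_sub_distrib]
    rw [e1, e2, sub_zero]
  have hsum : κ * n2 c + 2 * Real.pi * ∑ p, ∑ q, ∑ a, T p q a * c p q * dc c p q a -
      2 * Real.pi * N * ∑ p, ∑ q, l p q * c p q ^ 2 ≤
      ε₁ * ∑ p, ∑ q, ∑ a, |c p q| * |dc c p q a| +
        ε₂ * ∑ p, ∑ q, ∑ a, ∑ b, |c p q| * (|c q a| + 1 / 2 * |c a b|) := by
    calc κ * n2 c + 2 * Real.pi * ∑ p, ∑ q, ∑ a, T p q a * c p q * dc c p q a -
        2 * Real.pi * N * ∑ p, ∑ q, l p q * c p q ^ 2 =
        κ * n2 c + 2 * Real.pi * ∑ p, ∑ q, ∑ a, T p q a * c p q * dc c p q a -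
        2 * Real.pi * N * ∑ p, ∑ q, l p q * c p q ^ 2 +
          2 * Real.pi * ∑ p, ∑ q, (c p q * r p - c p q * r q) := by
          rw [hz, mul_zero, add_zero]
      _ = ∑ p, ∑ q, (κ * c p q ^ 2 + 2 * Real.pi * ∑ a, T p q a * c p q * dc c p q a -
          2 * Real.pi * N * (l p q * c p q ^ 2) + 2 * Real.pi * (c p q * r p - c p q * r q)) := by
          unfold n2
          simp only [Finset.mul_sum, ← Finset.sum_add_distrib, ← Finset.sum_sub_distrib]
      _ ≤ ∑ p, ∑ q, (ε₁ * (∑ a, |c p q| * |dc c p q a|) +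
          ε₂ * (∑ a, ∑ b, |c p q| * (|c q a| + 1 / 2 * |c a b|))) :=
          Finset.sum_le_sum fun p _ => Finset.sum_le_sum fun q _ => key p q
      _ = _ := by
          rw [Finset.mul_sum, Finset.mul_sum, ← Finset.sum_add_distrib]
          refine Finset.sum_congr rfl fun p _ => ?_
          rw [Finset.mul_sum, Finset.mul_sum, ← Finset.sum_add_distrib]
  have hmain := sum_T c T hT
  have b1 := mul_le_mul_of_nonneg_left (err1 c) hε₁
  have b2 := mul_le_mul_of_nonneg_left (err2 c) hε₂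
  have e : 2 / 3 * Real.pi * ∑ p, ∑ q, ∑ a, T p q a * dc c p q a ^ 2 =
      2 * Real.pi * ∑ p, ∑ q, ∑ a, T p q a * c p q * dc c p q a := by
    rw [← hmain]
    ring
  rw [e]
  linarith

/-- the form in terms of the rows -/
noncomputable def Q1 (c l : Fin N → Fin N → ℝ) : ℝ :=
  ∑ p, ∑ q, l p q * ∑ a, (c q a - c p a) ^ 2

/-- the sum of the weighted squares of the coboundary -/
theorem weighted (c : Fin N → Fin N → ℝ) (hc : ∀ a b, c b a = -c a b) (h0 : ∀ q, ∑ p, c p q = 0)
    (l : Fin N → Fin N → ℝ) :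
    ∑ p, ∑ q, ∑ a, (l p q + l q a + l a p) * dc c p q a ^ 2 =
      3 * (Q1 c l + N * ∑ p, ∑ q, l p q * c p q ^ 2) := by
  have hrow := row_zero hc h0
  have hd : ∀ p q a, dc c q a p = dc c p q a := by
    intro p q a
    unfold dc
    ring
  have h1 : ∑ p, ∑ q, ∑ a, l p q * dc c p q a ^ 2 = ∑ p, ∑ q, ∑ a, l q a * dc c p q a ^ 2 := by
    rw [cyc fun p q a => l p q * dc c p q a ^ 2]
    refine Finset.sum_congr rfl fun p _ => Finset.sum_congr rfl fun q _ =>
      Finset.sum_congr rfl fun a _ => ?_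
    rw [hd]
  have h2 : ∑ p, ∑ q, ∑ a, l q a * dc c p q a ^ 2 = ∑ p, ∑ q, ∑ a, l a p * dc c p q a ^ 2 := by
    rw [cyc fun p q a => l q a * dc c p q a ^ 2]
    refine Finset.sum_congr rfl fun p _ => Finset.sum_congr rfl fun q _ =>
      Finset.sum_congr rfl fun a _ => ?_
    rw [hd]
  have h3 : ∑ p, ∑ q, ∑ a, (l p q + l q a + l a p) * dc c p q a ^ 2 =
      3 * ∑ p, ∑ q, ∑ a, l p q * dc c p q a ^ 2 := by
    have e : ∑ p, ∑ q, ∑ a, (l p q + l q a + l a p) * dc c p q a ^ 2 =
        ∑ p, ∑ q, ∑ a, l p q * dc c p q a ^ 2 + ∑ p, ∑ q, ∑ a, l q a * dc c p q a ^ 2 +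
          ∑ p, ∑ q, ∑ a, l a p * dc c p q a ^ 2 := by
      simp only [← Finset.sum_add_distrib]
      refine Finset.sum_congr rfl fun p _ => Finset.sum_congr rfl fun q _ =>
        Finset.sum_congr rfl fun a _ => ?_
      ring
    rw [e, ← h2, ← h1]
    ring
  rw [h3]
  congr 1
  unfold Q1
  rw [Finset.mul_sum, ← Finset.sum_add_distrib]
  refine Finset.sum_congr rfl fun p _ => ?_
  rw [Finset.mul_sum, ← Finset.sum_add_distrib]
  refine Finset.sum_congr rfl fun q _ => ?_
  have h4 : ∑ a, dc c p q a ^ 2 = ∑ a, (c q a - c p a) ^ 2 + N * c p q ^ 2 := by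
    have e : ∀ a, dc c p q a ^ 2 = (c q a - c p a) ^ 2 + c p q ^ 2 +
        2 * c p q * (c q a - c p a) := by
      intro a
      unfold dc
      rw [hc p a]
      ring
    simp only [e]
    rw [Finset.sum_add_distrib, Finset.sum_add_distrib, ← Finset.mul_sum, Finset.sum_sub_distrib,
      hrow, hrow, Finset.sum_const, Finset.card_univ, Fintype.card_fin, nsmul_eq_mul]
    ring
  rw [← Finset.mul_sum, h4]
  ring

/-- the sum of the squares of the differences of the rows -/
theorem sum_rows (c : Fin N → Fin N → ℝ) (h0 : ∀ q, ∑ p, c p q = 0) :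
    ∑ p, ∑ q, ∑ a, (c q a - c p a) ^ 2 = 2 * N * n2 c := by
  have h1 : ∑ p, ∑ q, ∑ a, c q a * c p a = 0 := by
    have e : ∀ p, ∑ q, ∑ a, c q a * c p a = 0 := by
      intro p
      rw [Finset.sum_comm]
      refine Finset.sum_eq_zero fun a _ => ?_
      rw [← Finset.sum_mul, h0, zero_mul]
    exact Finset.sum_eq_zero fun p _ => e p
  have e : ∑ p, ∑ q, ∑ a, (c q a - c p a) ^ 2 = ∑ _p : Fin N, ∑ q, ∑ a, c q a ^ 2 +
      ∑ p, ∑ _q : Fin N, ∑ a, c p a ^ 2 - 2 * ∑ p, ∑ q, ∑ a, c q a * c p a := by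
    simp only [Finset.mul_sum, ← Finset.sum_add_distrib, ← Finset.sum_sub_distrib]
    refine Finset.sum_congr rfl fun p _ => Finset.sum_congr rfl fun q _ =>
      Finset.sum_congr rfl fun a _ => ?_
    ring
  rw [e, h1, sum3_b (fun q a => c q a ^ 2)]
  have e2 : ∑ p, ∑ _q : Fin N, ∑ a, c p a ^ 2 = N * n2 c := by
    unfold n2
    simp only [Finset.sum_const, Finset.card_univ, Fintype.card_fin, nsmul_eq_mul, Finset.mul_sum]
  rw [e2]
  unfold n2
  ring

end Pool.Agent.W5h29.PC.Alg
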