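import Pool.Agent.W5h29.LA.Dom
set_option autoImplicit false

/-!
Definitions: the smooth plane curves `λ ∏_p L_p = 1`, `L_p = y + α_p x + γ_p`, and the corrected symbols.
-/

namespace Pool.Agent.W5h29.PC

open MvPolynomial

open Pool.Agent.TH826.MK (KQ symb Torus Unramified)

open Pool.Agent.W5h29.LA (Dat)

variable {K : Type*} [Field K] {N : ℕ}

open scoped Classical in
/-- The constant `α_p β_q - α_q β_p` as a unit of the coordinate ring (the unit `1` if it is zero). -/
noncomputable def cu (D : Dat K N) (p q : Fin N) : D.CRingˣ :=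
  if h : D.det2 p q = 0 then 1
  else Units.map ((D.fn.comp MvPolynomial.C : K →+* D.CRing) : K →* D.CRing) (Units.mk0 _ h)

/-- The element `{L_p, L_q} - {L_p / L_q, α_p β_q - α_q β_p}` of `K_2` of the coordinate ring. -/
noncomputable def bs (D : Dat K N) (p q : Fin N) : KQ D.CRing 2 :=
  symb ![D.u p, D.u q] - symb ![D.u p * (D.u q)⁻¹, cu D p q]

/-- The elements given by the rational circulations are unramified at all discrete valuations of all
fields with a homomorphism from the coordinate ring, for example of the function field. -/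
def UnramifiedSymbols (D : Dat K N) : Prop :=
  ∀ c ∈ D.circ ℚ, ∀ (L : Type*) [Field L] (f : D.CRing →+* L),
    KQ.map 2 f (∑ p, ∑ q, c p q • bs D p q) ∈ Unramified L 2

/-- The regulators are independent: no nonzero real circulation `c` has the property that the
combination of the regulators of the `bs D p q` with the coefficients `c p q` vanishes on all loops in
the complex points over `σ` of the curve. -/
def IndependentRegulators (D : Dat K N) (σ : K →+* ℂ) : Prop :=
  ∀ c ∈ D.circ ℝ, (∀ T : Torus D.CRing 1, (∀ θ y, T.e θ (D.cst y) = σ y) →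
    ∑ p, ∑ q, c p q * T.reg (bs D p q) = 0) → c = 0

/-- The homogeneous polynomial `λ ∏_p (α_p X_0 + β_p X_1 + γ_p X_2) - X_2 ^ N`. -/
noncomputable def form (D : Dat K N) : MvPolynomial (Fin 3) K :=
  C D.lam * ∏ p, (C (D.al p) * X 0 + C (D.be p) * X 1 + C (D.ga p) * X 2) - X 2 ^ N

/-- The projective plane curve `λ ∏_p (α_p X_0 + β_p X_1 + γ_p X_2) = X_2 ^ N` is smooth over `σ`. -/
def SmoothCurve (D : Dat K N) (σ : K →+* ℂ) : Prop :=
  ∀ z : Fin 3 → ℂ, z ≠ 0 → eval₂Hom σ z (form D) = 0 →
    ∃ i, eval₂Hom σ z (pderiv i (form D)) ≠ 0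

/-- The conditions on the lines: `L_p = y + α_p x + γ_p` with different integers `α_p` and integers
`γ_p`, the lines `L_p = 0` and `L_q = 0` meet in a point with integral coordinates, and
`|det(L_p, L_q, L_a)|` is at least the absolute value of the product of the three differences of the
`α`. -/
structure Adm (D : Dat ℚ N) : Prop where
  be : ∀ p, D.be p = 1
  al : ∀ p, ∃ n : ℤ, D.al p = n
  ga : ∀ p, ∃ n : ℤ, D.ga p = n
  lam : ∃ n : ℤ, D.lam = n
  lam0 : D.lam ≠ 0
  ne : ∀ p q, p ≠ q → D.al p ≠ D.al q
  node : ∀ p q, ∃ n : ℤ, D.ga p - D.ga q = (D.al q - D.al p) * n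
  sep : ∀ p q a, p ≠ q → q ≠ a → a ≠ p →
    |D.det2 p q| * |D.det2 q a| * |D.det2 a p| ≤ |D.det3 p q a|

end Pool.Agent.W5h29.PC
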