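import Pool.Agent.W5h29.PC.Main
import Pool.Agent.W5h29.LU.Fin
set_option autoImplicit false

/-!
The exceptional members of the family, and the members given by integral polynomials.
-/

namespace Pool.Agent.W5h29.PC

open Pool.Agent.W5h29.LA (Dat)

open Pool.Agent.W5h29.LA.Dat

open Pool.Agent.W5h29.LU (Equi bd box exc exc_finite one_le_abs_of_int)

variable {N : ℕ} {D : Dat ℚ N}

/-- the exceptional data -/
def exc9 : Set (Σ N, Dat ℚ N) := {x | x ∈ exc ∧ x.1 ≤ 8}

theorem exc9_finite : exc9.Finite := exc_finite.subset fun _ hx => hx.1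

/-- the normal form -/
def nf (D : Dat ℚ N) (p q : Fin N) : Dat ℚ N where
  al a := D.al a - D.al p
  be _ := 1
  ga a := D.det3 p q a / D.det2 p q
  lam := D.lam

theorem equi_nf (hA : Adm D) {p q : Fin N} (hpq : p ≠ q) : Equi D (nf D p q) := by
  obtain ⟨n, hn⟩ := hA.node p q
  obtain ⟨a, ha⟩ := hA.al p
  obtain ⟨g, hg⟩ := hA.ga p
  have hd := hA.det2_ne hpq
  refine ⟨1, 0, a, 1, -n, g, Or.inl (by ring), rfl, fun x => ⟨?_, ?_, ?_⟩⟩
  · simp only [nf]
    rw [ha]
    push_cast
    ring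
  · simp only [nf]
    rw [hA.be x]
    push_cast
    ring
  · simp only [nf]
    have h1 : D.det3 p q x / D.det2 p q = D.ga x - D.ga p + (D.al x - D.al p) * n := by
      rw [div_eq_iff hd]
      unfold Dat.det3 Dat.det2
      rw [hA.be, hA.be, hA.be]
      linear_combination (D.al p - D.al x) * hn
    rw [h1, ← hg]
    push_cast
    ring

theorem nf_box (hA : Adm D) (hN : 3 ≤ N) {p q : Fin N} (hpq : p ≠ q)
    (hs : ksize D p q < 10 ^ 6) : nf D p q ∈ box N := by
  classical
  have hge : ∀ a ∈ oth p q, 1 ≤ |D.det3 p q a| / |D.det2 p q| := by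
    intro a ha
    have h1 := hA.ratio_ge hpq (mem_oth.1 ha).2.symm (mem_oth.1 ha).1
    have h2 := hA.det2_ge (mem_oth.1 ha).2.symm
    have h3 := hA.det2_ge (mem_oth.1 ha).1
    have h4 : 1 * 1 ≤ |D.det2 q a| * |D.det2 a p| := mul_le_mul h2 h3 zero_le_one (by linarith)
    linarith
  have hprod1 : ∀ s : Finset (Fin N), s ⊆ oth p q → 1 ≤ ∏ a ∈ s, (|D.det3 p q a| / |D.det2 p q|) := by
    intro s hs
    have h1 : ∏ a ∈ s, (1 : ℚ) ≤ ∏ a ∈ s, (|D.det3 p q a| / |D.det2 p q|) :=
      Finset.prod_le_prod (fun _ _ => zero_le_one) fun a ha => hge a (hs ha)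
    rwa [Finset.prod_const_one] at h1
  have hlam := lam_ge hA
  have hP := hprod1 _ (Finset.Subset.refl _)
  have hs' : |D.lam| * ∏ a ∈ oth p q, (|D.det3 p q a| / |D.det2 p q|) < 10 ^ 6 := hs
  have hlb : |D.lam| < 10 ^ 6 := by
    refine lt_of_le_of_lt ?_ hs'
    exact le_mul_of_one_le_right (abs_nonneg _) hP
  have hPb : ∏ a ∈ oth p q, (|D.det3 p q a| / |D.det2 p q|) < 10 ^ 6 := by
    refine lt_of_le_of_lt ?_ hs'
    exact le_mul_of_one_le_left (by linarith) hlam
  have hdet3 : ∀ a, a ∈ oth p q → |D.det3 p q a| / |D.det2 p q| ≤ 10 ^ 6 := by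
    intro a ha
    have h1 : |D.det3 p q a| / |D.det2 p q| ≤ ∏ a ∈ oth p q, (|D.det3 p q a| / |D.det2 p q|) := by
      rw [← Finset.mul_prod_erase _ _ ha]
      refine le_mul_of_one_le_right ?_ (hprod1 _ (Finset.erase_subset _ _))
      positivity
    linarith
  have hdist : ∀ a, a ∈ oth p q → |D.det2 p a| ≤ 10 ^ 6 ∧ |D.det2 q a| ≤ 10 ^ 6 := by
    intro a ha
    have h0 := hdet3 a ha
    have h1 := hA.ratio_ge hpq (mem_oth.1 ha).2.symm (mem_oth.1 ha).1
    have h2 := hA.det2_ge (mem_oth.1 ha).2.symm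
    have h3 := hA.det2_ge (mem_oth.1 ha).1
    rw [D.det2_symm a p, abs_neg] at h1 h3
    constructor
    · have h4 : 1 * |D.det2 p a| ≤ |D.det2 q a| * |D.det2 p a| :=
        mul_le_mul_of_nonneg_right h2 (abs_nonneg _)
      linarith
    · have h4 : |D.det2 q a| * 1 ≤ |D.det2 q a| * |D.det2 p a| :=
        mul_le_mul_of_nonneg_left h3 (abs_nonneg _)
      linarith
  -- a third line
  obtain ⟨r, hr⟩ : ∃ r, r ∈ oth p q := by
    have h1 : 0 < (oth p q).card := by
      rw [card_oth hpq]
      omega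
    exact Finset.card_pos.1 h1
  have hdist' : ∀ a, |D.det2 a p| ≤ 2 * 10 ^ 6 := by
    intro a
    by_cases ha : a ∈ oth p q
    · have := (hdist a ha).1
      rw [D.det2_symm a p, abs_neg]
      linarith
    · rw [mem_oth, not_and_or, not_not, not_not] at ha
      rcases ha with rfl | rfl
      · rw [det2_self]
        norm_num
      · have h1 := (hdist r hr).1
        have h2 := (hdist r hr).2
        have e : D.det2 a p = D.det2 a r - D.det2 p r := by
          rw [hA.det2_eq, hA.det2_eq, hA.det2_eq]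
          ring
        rw [e]
        refine (abs_sub _ _).trans ?_
        linarith
  choose x hx using hA.al
  refine ⟨fun a => ⟨x a - x p, ?_, ?_⟩, fun a => ⟨1, by simp [nf], by norm_num⟩, fun a => ?_, ?_⟩
  · simp only [nf]
    rw [hx, hx]
    push_cast
    rfl
  · have h1 := hdist' a
    rw [hA.det2_eq, hx, hx, ← Int.cast_sub, ← Int.cast_abs] at h1
    have h2 : |x a - x p| ≤ 2 * 10 ^ 6 := by exact_mod_cast h1
    linarith
  · obtain ⟨n, hn⟩ := hA.node p q
    obtain ⟨g, hg⟩ := hA.ga a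
    obtain ⟨g', hg'⟩ := hA.ga p
    have hd := hA.det2_ne hpq
    have h1 : D.det3 p q a / D.det2 p q = ((g - g' + (x a - x p) * n : ℤ) : ℚ) := by
      push_cast
      rw [← hg, ← hg', ← hx, ← hx, div_eq_iff hd]
      unfold Dat.det3 Dat.det2
      rw [hA.be, hA.be, hA.be]
      linear_combination (D.al p - D.al a) * hn
    refine ⟨g - g' + (x a - x p) * n, h1, ?_⟩
    by_cases ha : a ∈ oth p q
    · have h2 := hdet3 a ha
      rw [← abs_div, h1, ← Int.cast_abs] at h2
      have h3 : |g - g' + (x a - x p) * n| ≤ 10 ^ 6 := by exact_mod_cast h2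
      linarith
    · have h0 : D.det3 p q a = 0 := by
        rw [mem_oth, not_and_or, not_not, not_not] at ha
        rcases ha with rfl | rfl
        · unfold Dat.det3 Dat.det2
          ring
        · unfold Dat.det3 Dat.det2
          ring
      rw [h0, zero_div] at h1
      have h2 : (g - g' + (x a - x p) * n) = 0 := by exact_mod_cast h1.symm
      rw [h2]
      norm_num
  · obtain ⟨n, hn⟩ := hA.lam
    refine ⟨n, hn, ?_⟩
    have h1 := hlb.le
    rw [hn, ← Int.cast_abs] at h1
    have h2 : |n| ≤ 10 ^ 6 := by exact_mod_cast h1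
    linarith

/-- the determinant of three points of the graph of a polynomial -/
def dt (f : ℤ → ℤ) (p q r : ℤ) : ℤ := f p * (r - q) + f q * (p - r) + f r * (q - p)

theorem dvd_dt_pow (p q r : ℤ) (n : ℕ) : (p - q) * (q - r) * (r - p) ∣ dt (fun x => x ^ n) p q r := by
  induction n using Nat.strong_induction_on with
  | _ n ih =>
    match n, ih with
    | 0, _ => exact ⟨0, by unfold dt; ring⟩
    | 1, _ => exact ⟨0, by unfold dt; ring⟩
    | 2, _ => exact ⟨1, by unfold dt; ring⟩
    | n + 3, ih =>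
      have h0 := ih n (by omega)
      have h1 := ih (n + 1) (by omega)
      have h2 := ih (n + 2) (by omega)
      have e : dt (fun x => x ^ (n + 3)) p q r = (p + q + r) * dt (fun x => x ^ (n + 2)) p q r -
          (p * q + q * r + r * p) * dt (fun x => x ^ (n + 1)) p q r +
          (p * q * r) * dt (fun x => x ^ n) p q r := by
        unfold dt
        ring
      rw [e]
      exact dvd_add (dvd_sub (h2.mul_left _) (h1.mul_left _)) (h0.mul_left _)

theorem dvd_dt (f : Polynomial ℤ) (p q r : ℤ) :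
    (p - q) * (q - r) * (r - p) ∣ dt (fun x => f.eval x) p q r := by
  induction f using Polynomial.induction_on' with
  | add f g hf hg =>
    have e : dt (fun x => (f + g).eval x) p q r =
        dt (fun x => f.eval x) p q r + dt (fun x => g.eval x) p q r := by
      unfold dt
      simp only [Polynomial.eval_add]
      ring
    rw [e]
    exact dvd_add hf hg
  | monomial n c =>
    have e : dt (fun x => (Polynomial.monomial n c).eval x) p q r =
        c * dt (fun x => x ^ n) p q r := by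
      unfold dt
      simp only [Polynomial.eval_monomial]
      ring
    rw [e]
    exact (dvd_dt_pow p q r n).mul_left _

/-- the members given by polynomials -/
theorem adm_poly (a : Fin N → ℤ) (f : Polynomial ℤ) (l : ℤ) (ha : Function.Injective a)
    (hl : l ≠ 0) (hf : ∀ p q r, p ≠ q → q ≠ r → r ≠ p →
      dt (fun x => f.eval x) (a p) (a q) (a r) ≠ 0) :
    Adm (⟨fun p => ((-a p : ℤ) : ℚ), fun _ => 1, fun p => ((f.eval (a p) : ℤ) : ℚ), (l : ℚ)⟩ :
      Dat ℚ N) where
  be _ := rfl
  al p := ⟨_, rfl⟩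
  ga p := ⟨_, rfl⟩
  lam := ⟨_, rfl⟩
  lam0 := by
    show ((l : ℤ) : ℚ) ≠ 0
    exact_mod_cast hl
  ne p q h h' := by
    apply h
    apply ha
    have h2 : ((-a p : ℤ) : ℚ) = ((-a q : ℤ) : ℚ) := h'
    have h3 : -a p = -a q := by exact_mod_cast h2
    linarith
  node p q := by
    obtain ⟨n, hn⟩ := Polynomial.sub_dvd_eval_sub (a p) (a q) f
    refine ⟨n, ?_⟩
    show ((f.eval (a p) : ℤ) : ℚ) - ((f.eval (a q) : ℤ) : ℚ) =
      (((-a q : ℤ) : ℚ) - ((-a p : ℤ) : ℚ)) * n
    rw [← Int.cast_sub, hn]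
    push_cast
    ring
  sep p q r h1 h2 h3 := by
    have h4 := Int.le_of_dvd (abs_pos.2 (hf p q r h1 h2 h3))
      ((abs_dvd_abs _ _).2 (dvd_dt f (a p) (a q) (a r)))
    have e1 : ∀ p q : Fin N, Dat.det2 (⟨fun p => ((-a p : ℤ) : ℚ), fun _ => 1,
        fun p => ((f.eval (a p) : ℤ) : ℚ), (l : ℚ)⟩ : Dat ℚ N) p q = ((a q - a p : ℤ) : ℚ) := by
      intro p q
      unfold Dat.det2
      push_cast
      ring
    unfold Dat.det3
    rw [e1, e1, e1]
    rw [← abs_mul, ← abs_mul]
    have h5 : |((a q - a p) * (a r - a q) * (a p - a r) : ℤ)| ≤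
        |dt (fun x => f.eval x) (a p) (a q) (a r)| := by
      refine le_trans (le_of_eq ?_) h4
      rw [← abs_neg]
      congr 1
      ring
    unfold dt at h5
    have h6 : ((|((a q - a p) * (a r - a q) * (a p - a r) : ℤ)| : ℤ) : ℚ) ≤
        ((|f.eval (a p) * (a r - a q) + f.eval (a q) * (a p - a r) +
          f.eval (a r) * (a q - a p)| : ℤ) : ℚ) := by exact_mod_cast h5
    rw [Int.cast_abs, Int.cast_abs] at h6
    push_cast at h6 ⊢
    exact h6

end Pool.Agent.W5h29.PC
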