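import Pool.Agent.W5h29.PC.Def
import Pool.Agent.W5h29.PC.Alg
import Pool.Agent.W5h29.LU.Ind
set_option autoImplicit false

/-!
The regulators are independent: the general criterion.
-/

namespace Pool.Agent.W5h29.PC

open MvPolynomial

open Pool.Agent.TH826.MK (KQ symb symb_update_mul Torus pairing norm_circ contDiff_circ circ_add_one
  hasDerivAt_circ)

open Pool.Agent.TH826.UH (pr NZ nz_circ pairing_eq_pr pr_prod pr_mul ld_circ)

open Pool.Agent.W5h29.LA (Dat)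

open Pool.Agent.W5h29.LA.Dat

open Pool.Agent.W5h29.LU

variable {K : Type*} [Field K] {N : ℕ} {D : Dat K N} {σ : K →+* ℂ}

theorem symb_quot {A : Type*} [CommRing A] (a b c : Aˣ) :
    symb ![a * b⁻¹, c] = symb ![a, c] - symb ![b, c] := by
  have upd : ∀ (x : Aˣ), Function.update ![a, c] 0 x = ![x, c] := by
    intro x
    funext i
    fin_cases i <;> simp
  have h := symb_update_mul ![a, c] 0 (a * b⁻¹) b
  rw [upd, upd, upd, inv_mul_cancel_right] at h
  rw [h]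
  abel

theorem mkL_reg' {Z : ℝ → Fin 2 → ℂ} (hZ : ∀ i, ContDiff ℝ 2 fun t => Z t i)
    (hZ1 : ∀ t, Z (t + 1) = Z t) (hz : ∀ t, eval₂Hom σ (Z t) D.eqn = 0) {U V : D.CRingˣ}
    {F G : ℝ → ℂ} (hF : NZ F) (hG : NZ G) (hU : ∀ t, D.ev σ (Z t) (hz t) (U : D.CRing) = F t)
    (hV : ∀ t, D.ev σ (Z t) (hz t) (V : D.CRing) = G t) :
    (mkL hZ hZ1 hz).reg (symb ![U, V]) = pr F G := by
  rw [← pairing_eq_pr hF hG, Torus.reg_symb]
  unfold Torus.pair
  congr 1
  funext i θ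
  fin_cases i
  · exact hU (θ 0)
  · exact hV (θ 0)

/-- the constant -/
noncomputable def cc (D : Dat K N) (σ : K →+* ℂ) (p q : Fin N) : ℂ := σ (cst0 D p q)
where
  /-- the constant in the field -/
  cst0 (D : Dat K N) (p q : Fin N) : K := open scoped Classical in
    if D.det2 p q = 0 then 1 else D.det2 p q

theorem cc_ne (p q : Fin N) : cc D σ p q ≠ 0 := by
  unfold cc cc.cst0
  split_ifs with h
  · rw [map_one]
    exact one_ne_zero
  · exact (map_ne_zero σ).2 h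

theorem ev_cu (z : Fin 2 → ℂ) (hz : eval₂Hom σ z D.eqn = 0) (p q : Fin N) :
    D.ev σ z hz (cu D p q : D.CRing) = cc D σ p q := by
  unfold cu cc cc.cst0
  split_ifs with h
  · rw [Units.val_one, map_one, map_one]
  · exact ev_cst z hz _

theorem log_cc (p q : Fin N) : Real.log ‖cc D σ p q‖ = Real.log ‖σ (D.det2 p q)‖ := by
  unfold cc cc.cst0
  split_ifs with h
  · rw [h, map_one, map_zero, norm_one, norm_zero, Real.log_one, Real.log_zero]
  · rfl

theorem mkL_bs {Z : ℝ → Fin 2 → ℂ} (hZ : ∀ i, ContDiff ℝ 2 fun t => Z t i)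
    (hZ1 : ∀ t, Z (t + 1) = Z t) (hz : ∀ t, eval₂Hom σ (Z t) D.eqn = 0)
    (hn : ∀ a, NZ fun t => D.val σ (Z t) a) (a b : Fin N) :
    (mkL hZ hZ1 hz).reg (bs D a b) =
      pr (fun t => D.val σ (Z t) a) (fun t => D.val σ (Z t) b) +
        Real.log ‖σ (D.det2 a b)‖ * (Nd.wi (fun t => D.val σ (Z t) a) -
          Nd.wi fun t => D.val σ (Z t) b) := by
  have hc : NZ fun _ : ℝ => cc D σ a b := ⟨contDiff_const, fun _ => cc_ne a b⟩
  unfold bs
  rw [symb_quot, map_sub, map_sub, mkL_reg hZ hZ1 hz hn,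
    mkL_reg' hZ hZ1 hz (hn a) hc (fun t => ev_u (Z t) (hz t) a) (fun t => ev_cu (Z t) (hz t) a b),
    mkL_reg' hZ hZ1 hz (hn b) hc (fun t => ev_u (Z t) (hz t) b) (fun t => ev_cu (Z t) (hz t) a b),
    Nd.pr_cst, Nd.pr_cst, log_cc]
  ring

/-- the value of the linear polynomial at the node -/
theorem norm_coef {η R : ℝ} (hR : 0 < R) (hRη : R ≤ η) {x y z : ℂ} (hy : y ≠ 0) (hz : z ≠ 0)
    (hx : ‖x‖ ≤ ‖z‖) : ‖R * (x / y) / (z / y)‖ ≤ η := by
  have hz' : 0 < ‖z‖ := norm_pos_iff.2 hz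
  have e : (R : ℂ) * (x / y) / (z / y) = R * x / z := by
    field_simp
  rw [e, norm_div, norm_mul, Complex.norm_real, Real.norm_eq_abs, abs_of_pos hR,
    div_le_iff₀ hz']
  calc R * ‖x‖ ≤ R * ‖z‖ := mul_le_mul_of_nonneg_left hx hR.le
    _ ≤ η * ‖z‖ := mul_le_mul_of_nonneg_right hRη hz'.le

/-- the loop around a node -/
theorem exists_loop {η : ℝ} (hη : 0 ≤ η) (hN : (N : ℝ) * η ≤ 1 / 10)
    (hl0 : σ D.lam ≠ 0) {p q : Fin N} (hd : D.det2 p q ≠ 0)
    (h0 : ∀ a, a ≠ p → a ≠ q → D.det3 p q a ≠ 0)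
    (h1 : ∀ a, a ≠ p → a ≠ q → ‖σ (D.det2 a q)‖ ≤ ‖σ (D.det3 p q a)‖)
    (h2 : ∀ a, a ≠ p → a ≠ q → ‖σ (D.det2 p a)‖ ≤ ‖σ (D.det3 p q a)‖)
    (hK : 1 ≤ η ^ 2 * (‖σ D.lam‖ * ∏ a ∈ oth p q, ‖Aa D σ p q a‖)) :
    ∃ (E : Fin N → Fin N → ℝ) (w : Fin N → ℝ) (T : Torus D.CRing 1),
      (∀ θ y, T.e θ (D.cst y) = σ y) ∧
      (∀ a b, T.reg (bs D a b) = E a b + Real.log ‖σ (D.det2 a b)‖ * (w a - w b)) ∧
      w p = 2 * Real.pi ∧ w q = -(2 * Real.pi) ∧ (∀ a, a ≠ p → a ≠ q → w a = 0) ∧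
      (∀ a b, E b a = -E a b) ∧ ∑ b, E p b = 2 * Real.pi * Real.log ‖σ D.lam‖ ∧
      (∀ a, a ≠ p → a ≠ q → ∑ b, E a b = 0) ∧
      (∀ a, a ≠ p → a ≠ q → |E p a + 2 * Real.pi * Real.log ‖Aa D σ p q a‖| ≤
        7 * Real.pi * η) ∧
      ∀ a b, a ≠ p → a ≠ q → b ≠ p → b ≠ q → |E a b| ≤ 22 * Real.pi * η ^ 2 := by
  classical
  have hpq := ne_of_det2 hd
  have hdσ : σ (D.det2 p q) ≠ 0 := (map_ne_zero σ).2 hd
  set κ : ℝ := ‖σ D.lam‖ * ∏ a ∈ oth p q, ‖Aa D σ p q a‖ with hκ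
  have hκ0 : 0 < κ := by
    by_contra h
    push Not at h
    have := mul_nonpos_of_nonneg_of_nonpos (sq_nonneg η) h
    linarith
  set R : ℝ := (Real.sqrt κ)⁻¹ with hRdef
  have hsq : 0 < Real.sqrt κ := Real.sqrt_pos.2 hκ0
  have hR : 0 < R := inv_pos.2 hsq
  have hR2 : R ^ 2 * κ = 1 := by
    rw [hRdef, inv_pow, Real.sq_sqrt hκ0.le, inv_mul_cancel₀ hκ0.ne']
  have hRη : R ≤ η := by
    have h2 : R ^ 2 * κ ≤ η ^ 2 * κ := by
      rw [hR2]
      exact hK
    exact (pow_le_pow_iff_left₀ hR.le hη two_ne_zero).1 (le_of_mul_le_mul_right h2 hκ0)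
  have hR0 : (R : ℂ) ≠ 0 := by
    exact_mod_cast hR.ne'
  have hA0 : ∀ a ∈ oth p q, Aa D σ p q a ≠ 0 := by
    intro a ha
    exact div_ne_zero ((map_ne_zero σ).2 (h0 a (mem_oth.1 ha).1 (mem_oth.1 ha).2)) hdσ
  set u : ℂ := (σ D.lam * (R : ℂ) ^ 2 * ∏ a ∈ oth p q, Aa D σ p q a)⁻¹ with hu
  have hunorm : ‖u‖ = 1 := by
    rw [hu, norm_inv, norm_mul, norm_mul, norm_prod, norm_pow, Complex.norm_real, Real.norm_eq_abs,
      abs_of_pos hR]
    have e : ‖σ D.lam‖ * R ^ 2 * ∏ a ∈ oth p q, ‖Aa D σ p q a‖ = R ^ 2 * κ := by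
      rw [hκ]
      ring
    rw [e, hR2, inv_one]
  have hcard : ((oth p q).card : ℝ) + 2 = N := by
    rw [card_oth hpq]
    have h2 : 2 ≤ N := by
      have h3 := p.isLt
      have h4 := q.isLt
      by_contra h
      apply hpq
      apply Fin.ext
      omega
    push_cast [h2]
    ring
  have hg : Nd.Good (oth p q) (rr D σ R p q) (ss D σ R p q) u η := by
    refine ⟨fun a ha => ?_, fun a ha => ?_, hunorm, hη, ?_⟩
    · exact norm_coef hR hRη hdσ ((map_ne_zero σ).2 (h0 a (mem_oth.1 ha).1 (mem_oth.1 ha).2))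
        (h1 a (mem_oth.1 ha).1 (mem_oth.1 ha).2)
    · exact norm_coef hR hRη hdσ ((map_ne_zero σ).2 (h0 a (mem_oth.1 ha).1 (mem_oth.1 ha).2))
        (h2 a (mem_oth.1 ha).1 (mem_oth.1 ha).2)
    · rw [hcard]
      exact hN
  obtain ⟨Y, y1, y2, y3, y4, y5, y6⟩ := Nd.exists_Y hg
  have hL : Nd.Lp (oth p q) (rr D σ R p q) (ss D σ R p q) u η Y := ⟨hg, y1, y2, y3, y4, y5, y6⟩
  set Z : ℝ → Fin 2 → ℂ := fun t => D.pt σ p q (R * TH826.MK.circ 1 t) (R * Y t) with hZdef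
  have hZ : ∀ i, ContDiff ℝ 2 fun t => Z t i := by
    intro i
    have c1 : ContDiff ℝ 2 fun t => (R : ℂ) * TH826.MK.circ 1 t := contDiff_const.mul (contDiff_circ 1)
    have c2 : ContDiff ℝ 2 fun t => (R : ℂ) * Y t := contDiff_const.mul y1
    fin_cases i
    · exact ((contDiff_const.mul (c1.sub contDiff_const)).sub
        (contDiff_const.mul (c2.sub contDiff_const))).div_const _
    · exact ((contDiff_const.mul (c2.sub contDiff_const)).sub
        (contDiff_const.mul (c1.sub contDiff_const))).div_const _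
  have hZ1 : ∀ t, Z (t + 1) = Z t := by
    intro t
    simp only [hZdef]
    rw [circ_add_one, y2]
  set f : Fin N → ℝ → ℂ := fun a t => D.val σ (Z t) a with hf
  have vp : f p = fun t => (R : ℂ) * TH826.MK.circ 1 t := funext fun t => by
    simp only [hf, hZdef]
    rw [val_pt_left hd]
  have vq : f q = fun t => (R : ℂ) * Y t := funext fun t => by
    simp only [hf, hZdef]
    rw [val_pt_right hd]
  have va : ∀ a ∈ oth p q, f a =
      fun t => Aa D σ p q a * Nd.M (rr D σ R p q) (ss D σ R p q) a (TH826.MK.circ 1 t) (Y t) :=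
    fun a ha => funext fun t => by
      simp only [hf, hZdef]
      exact val_pt' hR hd (hA0 a ha) _ _
  have hprod : ∀ t, ∏ a, f a t = (σ D.lam)⁻¹ := by
    intro t
    rw [← Finset.mul_prod_erase _ _ (Finset.mem_univ p),
      ← Finset.mul_prod_erase _ _ (Finset.mem_erase.2 ⟨hpq.symm, Finset.mem_univ q⟩),
      congrFun vp t, congrFun vq t]
    have e : ∏ a ∈ (Finset.univ.erase p).erase q, f a t = (∏ a ∈ oth p q, Aa D σ p q a) *
        ∏ a ∈ oth p q, Nd.M (rr D σ R p q) (ss D σ R p q) a (TH826.MK.circ 1 t) (Y t) := by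
      rw [← Finset.prod_mul_distrib]
      exact Finset.prod_congr rfl fun a ha => congrFun (va a ha) t
    have hP : ∏ a ∈ oth p q, Aa D σ p q a ≠ 0 := Finset.prod_ne_zero_iff.2 hA0
    have e2 : (R : ℂ) * TH826.MK.circ 1 t * ((R : ℂ) * Y t *
        ((∏ a ∈ oth p q, Aa D σ p q a) *
        ∏ a ∈ oth p q, Nd.M (rr D σ R p q) (ss D σ R p q) a (TH826.MK.circ 1 t) (Y t))) =
        (R : ℂ) ^ 2 * (∏ a ∈ oth p q, Aa D σ p q a) * (TH826.MK.circ 1 t * Y t *
        ∏ a ∈ oth p q, Nd.M (rr D σ R p q) (ss D σ R p q) a (TH826.MK.circ 1 t) (Y t)) := by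
      ring
    rw [e, e2, y6 t, hu]
    field_simp
  have hz : ∀ t, eval₂Hom σ (Z t) D.eqn = 0 := by
    intro t
    unfold Dat.eqn
    rw [map_sub, map_mul, map_prod, eval₂Hom_C, map_one]
    simp only [eval_line']
    have h7 := hprod t
    simp only [hf] at h7
    rw [h7, mul_inv_cancel₀ hl0, sub_self]
  have hnf : ∀ a, NZ (f a) := by
    intro a
    have hcR : NZ fun _ : ℝ => (R : ℂ) := ⟨contDiff_const, fun _ => hR0⟩
    by_cases hap : a = p
    · rw [hap, vp]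
      exact hcR.mul (nz_circ one_pos)
    by_cases haq : a = q
    · rw [haq, vq]
      exact hcR.mul hL.nzY
    have ha : a ∈ oth p q := mem_oth.2 ⟨hap, haq⟩
    have hcA : NZ fun _ : ℝ => Aa D σ p q a := ⟨contDiff_const, fun _ => hA0 a ha⟩
    rw [va a ha]
    exact hcA.mul (hL.nzM ha)
  have hrow : ∀ a, ∑ b, pr (f a) (f b) = Real.log ‖σ D.lam‖ * Nd.wi (f a) := by
    intro a
    rw [← pr_prod Finset.univ (hnf a) (H := f) hnf]
    simp only [hprod]
    rw [Nd.pr_cst, norm_inv, Real.log_inv]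
    ring
  have wp : Nd.wi (f p) = 2 * Real.pi := by
    rw [vp, Nd.wi_mul_const hR0, Nd.wi_circ]
  have wa : ∀ a, a ≠ p → a ≠ q → Nd.wi (f a) = 0 := by
    intro a hap haq
    have ha : a ∈ oth p q := mem_oth.2 ⟨hap, haq⟩
    rw [va a ha, Nd.wi_mul_const (hA0 a ha), hL.wind ha]
  have wq : Nd.wi (f q) = -(2 * Real.pi) := by
    have h2 : NZ fun _ : ℝ => (2 : ℂ) := ⟨contDiff_const, fun _ => two_ne_zero⟩
    have h3 : ∑ b, pr (fun _ : ℝ => (2 : ℂ)) (f b) = 0 := by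
      rw [← pr_prod Finset.univ h2 (H := f) hnf]
      simp only [hprod]
      rw [Nd.pr_cst]
      unfold Nd.wi
      simp
    have h4 : ∀ b, pr (fun _ : ℝ => (2 : ℂ)) (f b) = Real.log ‖(2 : ℂ)‖ * Nd.wi (f b) :=
      fun b => Nd.pr_cst' _ _
    simp only [h4] at h3
    rw [← Finset.mul_sum] at h3
    have h5 : Real.log ‖(2 : ℂ)‖ ≠ 0 := by
      rw [Complex.norm_ofNat]
      exact (Real.log_pos (by norm_num)).ne'
    have h6 := (mul_eq_zero.1 h3).resolve_left h5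
    rw [LA.Alg.split_sum hpq, wp, Finset.sum_eq_zero fun a ha => ?_] at h6
    · linarith
    · exact wa a (mem_oth.1 ha).1 (mem_oth.1 ha).2
  refine ⟨fun a b => pr (f a) (f b), fun a => Nd.wi (f a), mkL hZ hZ1 hz,
    fun θ y => ev_cst (Z (θ 0)) (hz (θ 0)) y, fun a b => mkL_bs hZ hZ1 hz hnf a b, wp, wq, wa,
    fun a b => LA.Nd.pr_antisymm _ _, ?_, ?_, ?_, ?_⟩
  · rw [hrow p, wp]
    ring
  · intro a hap haq
    simp only
    rw [hrow a, wa a hap haq, mul_zero]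
  · intro a hap haq
    have ha : a ∈ oth p q := mem_oth.2 ⟨hap, haq⟩
    simp only
    rw [vp, va a ha, Nd.pr_scale (nz_circ one_pos) (hL.nzM ha) hR0 (hA0 a ha), hL.wind ha,
      Nd.wi_circ]
    have e : pr (TH826.MK.circ 1)
        (fun t => Nd.M (rr D σ R p q) (ss D σ R p q) a (TH826.MK.circ 1 t) (Y t)) +
        Real.log ‖(R : ℂ)‖ * 0 - Real.log ‖Aa D σ p q a‖ * (2 * Real.pi) +
        2 * Real.pi * Real.log ‖Aa D σ p q a‖ = pr (TH826.MK.circ 1)
        (fun t => Nd.M (rr D σ R p q) (ss D σ R p q) a (TH826.MK.circ 1 t) (Y t)) := by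
      ring
    rw [e]
    exact hL.est1 ha
  · intro a b hap haq hbp hbq
    have ha : a ∈ oth p q := mem_oth.2 ⟨hap, haq⟩
    have hb : b ∈ oth p q := mem_oth.2 ⟨hbp, hbq⟩
    simp only
    rw [va a ha, va b hb, Nd.pr_scale (hL.nzM ha) (hL.nzM hb) (hA0 a ha) (hA0 b hb), hL.wind ha,
      hL.wind hb, mul_zero, mul_zero, add_zero, sub_zero]
    exact hL.est2 ha hb

/-- the logarithm of the determinant -/
noncomputable def ell (D : Dat K N) (σ : K →+* ℂ) (p q : Fin N) : ℝ := Real.log ‖σ (D.det2 p q)‖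

theorem ell_symm (p q : Fin N) : ell D σ q p = ell D σ p q := by
  unfold ell
  rw [D.det2_symm q p, map_neg, norm_neg]

/-- the inequality for a circulation whose regulator vanishes -/
theorem ineq {η : ℝ} (hη : 0 ≤ η) (hN : (N : ℝ) * η ≤ 1 / 10)
    (hl0 : σ D.lam ≠ 0)
    (h0 : ∀ p q a, p ≠ q → a ≠ p → a ≠ q → D.det3 p q a ≠ 0)
    (h1 : ∀ p q a, p ≠ q → a ≠ p → a ≠ q → ‖σ (D.det2 a q)‖ ≤ ‖σ (D.det3 p q a)‖)
    (h2 : ∀ p q a, p ≠ q → a ≠ p → a ≠ q → ‖σ (D.det2 p a)‖ ≤ ‖σ (D.det3 p q a)‖)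
    (hK : ∀ p q, p ≠ q →
      1 ≤ η ^ 2 * (‖σ D.lam‖ * ∏ a ∈ oth p q, ‖Aa D σ p q a‖))
    {c : Fin N → Fin N → ℝ} (hc : c ∈ D.circ ℝ)
    (hreg : ∀ T : Torus D.CRing 1, (∀ θ y, T.e θ (D.cst y) = σ y) →
      ∑ p, ∑ q, c p q * T.reg (bs D p q) = 0) :
    2 * Real.pi * Real.log ‖σ D.lam‖ * LA.Alg.n2 c + 2 / 3 * Real.pi *
      ∑ p, ∑ q, ∑ a, Real.log ‖σ (D.det3 p q a)‖ * LA.Alg.dc c p q a ^ 2 -
      2 * Real.pi * N * ∑ p, ∑ q, ell D σ p q * c p q ^ 2 ≤
      7 * Real.pi * η * (3 * N * LA.Alg.n2 c) +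
        22 * Real.pi * η ^ 2 * (3 / 2 * N ^ 2 * LA.Alg.n2 c) := by
  obtain ⟨hc1, hc2, hc3⟩ := hc
  refine Alg.main c hc1 hc3 (fun p q a => Real.log ‖σ (D.det3 p q a)‖) ?_ (ell D σ) (by positivity)
    (by positivity) ?_
  · intro p q a
    have e : D.det3 q a p = D.det3 p q a := by
      unfold Dat.det3
      ring
    simp only [e]
  · intro p q hpq0
    have hd : D.det2 p q ≠ 0 := fun h => hpq0 (hc2 p q h)
    have hpq := ne_of_det2 hd
    obtain ⟨E, w, T, hT, hE, wp, wq, wa, hanti, hp, hA, he, hF⟩ :=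
      exists_loop hη hN hl0 hd (fun a => h0 p q a hpq) (fun a => h1 p q a hpq)
        (fun a => h2 p q a hpq) (hK p q hpq)
    refine ⟨fun a => E p a, E, ?_, hF, ?_⟩
    · intro a hap haq
      have h3 := he a hap haq
      have e : Real.log ‖Aa D σ p q a‖ = Real.log ‖σ (D.det3 p q a)‖ - ell D σ p q := by
        unfold Aa ell
        rw [norm_div, Real.log_div]
        · exact norm_ne_zero_iff.2 ((map_ne_zero σ).2 (h0 p q a hpq hap haq))
        · exact norm_ne_zero_iff.2 ((map_ne_zero σ).2 hd)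
      rwa [e] at h3
    have h3 := hreg T hT
    simp only [hE] at h3
    have h4 := LA.Alg.identity hpq c E hc1 hanti _ hp hA
    -- the correction
    have h5 : ∑ a, ∑ b, c a b * (Real.log ‖σ (D.det2 a b)‖ * (w a - w b)) =
        2 * ∑ a, w a * ∑ b, c a b * ell D σ a b := by
      have e1 : ∑ a, ∑ b, c a b * (Real.log ‖σ (D.det2 a b)‖ * (w a - w b)) =
          ∑ a, ∑ b, c a b * ell D σ a b * w a - ∑ a, ∑ b, c a b * ell D σ a b * w b := by
        rw [← Finset.sum_sub_distrib]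
        refine Finset.sum_congr rfl fun a _ => ?_
        rw [← Finset.sum_sub_distrib]
        refine Finset.sum_congr rfl fun b _ => ?_
        unfold ell
        ring
      have e2 : ∑ a, ∑ b, c a b * ell D σ a b * w b = -∑ a, ∑ b, c a b * ell D σ a b * w a := by
        rw [Finset.sum_comm, ← Finset.sum_neg_distrib]
        refine Finset.sum_congr rfl fun a _ => ?_
        rw [← Finset.sum_neg_distrib]
        refine Finset.sum_congr rfl fun b _ => ?_
        rw [hc1 a b, ell_symm a b]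
        ring
      have e3 : ∑ a, ∑ b, c a b * ell D σ a b * w a = ∑ a, w a * ∑ b, c a b * ell D σ a b := by
        refine Finset.sum_congr rfl fun a _ => ?_
        rw [Finset.mul_sum]
        refine Finset.sum_congr rfl fun b _ => ?_
        ring
      rw [e1, e2, e3]
      ring
    have h6 : ∑ a, w a * ∑ b, c a b * ell D σ a b =
        2 * Real.pi * (∑ b, c p b * ell D σ p b - ∑ b, c q b * ell D σ q b) := by
      have h7 : ∑ a ∈ (Finset.univ.erase p).erase q, w a * ∑ b, c a b * ell D σ a b = 0 := by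
        refine Finset.sum_eq_zero fun a ha => ?_
        rw [wa a (mem_oth.1 ha).1 (mem_oth.1 ha).2, zero_mul]
      rw [LA.Alg.split_sum hpq, wp, wq, h7]
      ring
    have h7 : ∑ a, ∑ b, c a b * (E a b + Real.log ‖σ (D.det2 a b)‖ * (w a - w b)) =
        ∑ a, ∑ b, c a b * E a b +
          ∑ a, ∑ b, c a b * (Real.log ‖σ (D.det2 a b)‖ * (w a - w b)) := by
      simp only [← Finset.sum_add_distrib, ← mul_add]
    rw [h7, h5, h6] at h3
    have h8 : (2 * Real.pi * Real.log ‖σ D.lam‖ * c p q -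
        ∑ a ∈ (Finset.univ.erase p).erase q, E p a * (c p q + c q a + c a p) +
        ∑ a ∈ (Finset.univ.erase p).erase q, ∑ b ∈ (Finset.univ.erase p).erase q,
          (c q a + 1 / 2 * c a b) * E a b) +
        2 * Real.pi * (∑ b, c p b * ell D σ p b - ∑ b, c q b * ell D σ q b) = 0 := by
      rw [← h4]
      linarith
    exact h8

end Pool.Agent.W5h29.PC
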