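import Pool.Agent.W5h29.PC.Pos
import Pool.Agent.W5h29.LU.Smooth
set_option autoImplicit false

/-!
The projective plane curve is smooth.
-/

namespace Pool.Agent.W5h29.PC

open MvPolynomial

open Pool.Agent.W5h29.LA (Dat)

open Pool.Agent.W5h29.LA.Dat

open Pool.Agent.W5h29.LU (prod_le_exp split_sum' one_le_abs_of_int)

variable {N : ℕ} {D : Dat ℚ N}

/-- there are no singular points -/
theorem no_sing (hA : Adm D) {l : ℝ} (hl : 1 ≤ l) (hN : 2 ≤ N) (w : Fin N → ℝ)
    (h0 : ∀ a, w a ≠ 0) (hpr : l * ∏ a, |w a| = 1)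
    (hrel : ∀ p q a, ((D.det3 p q a : ℚ) : ℝ) = w p * (D.det2 q a : ℚ) + w q * (D.det2 a p : ℚ) +
      w a * (D.det2 p q : ℚ))
    (hal : ∑ a, ((D.al a : ℚ) : ℝ) / w a = 0) (hbe : ∑ a, ((D.be a : ℚ) : ℝ) / w a = 0)
    (hK : ∀ p q, p ≠ q → 100 * (N : ℝ) ^ 2 ≤
      l * ∏ a ∈ oth p q, (|((D.det3 p q a : ℚ) : ℝ)| / |((D.det2 p q : ℚ) : ℝ)|)) :
    False := by
  classical
  have hnon : Nonempty (Fin N) := ⟨⟨0, by omega⟩⟩
  -- the vectors
  set X : Fin N → ℝ := fun a => ((D.al a : ℚ) : ℝ) / w a with hX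
  set Y : Fin N → ℝ := fun a => ((D.be a : ℚ) : ℝ) / w a with hY
  set M : Fin N → Fin N → ℝ := fun p q => X p * Y q - X q * Y p with hM
  have hMd : ∀ p q, M p q = ((D.det2 p q : ℚ) : ℝ) / (w p * w q) := by
    intro p q
    have := h0 p
    have := h0 q
    simp only [hM, hX, hY]
    unfold Dat.det2
    push_cast
    field_simp
  have hMne : ∀ p q, p ≠ q → M p q ≠ 0 := by
    intro p q hpq
    rw [hMd]
    exact div_ne_zero (by exact_mod_cast hA.det2_ne hpq) (mul_ne_zero (h0 p) (h0 q))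
  -- the first vertex
  obtain ⟨p, hp⟩ := Finite.exists_max fun a => X a ^ 2 + Y a ^ 2
  have hDpos : ∀ a, a ≠ p → 0 < X p ^ 2 + Y p ^ 2 - (X p * X a + Y p * Y a) := by
    intro a ha
    have h1 := hp a
    have h2 := hMne p a ha.symm
    have h3 : 0 < (X p - X a) ^ 2 + (Y p - Y a) ^ 2 := by
      by_contra hcon
      push Not at hcon
      have g1 : X p - X a = 0 := by nlinarith [sq_nonneg (X p - X a), sq_nonneg (Y p - Y a)]
      have g2 : Y p - Y a = 0 := by nlinarith [sq_nonneg (X p - X a), sq_nonneg (Y p - Y a)]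
      apply h2
      simp only [hM]
      rw [sub_eq_zero.1 g1, sub_eq_zero.1 g2]
      ring
    nlinarith
  -- the second vertex
  have : Nontrivial (Fin N) := Fin.nontrivial_iff_two_le.2 hN
  obtain ⟨q₀, hq₀⟩ := exists_ne p
  obtain ⟨q, hq', hq⟩ := Finset.exists_max_image (Finset.univ.erase p)
    (fun a => M p a / (X p ^ 2 + Y p ^ 2 - (X p * X a + Y p * Y a)))
    ⟨q₀, Finset.mem_erase.2 ⟨hq₀, Finset.mem_univ _⟩⟩
  have hqp : q ≠ p := (Finset.mem_erase.1 hq').1
  have hpq : p ≠ q := hqp.symm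
  have hsumM : ∑ a, M p a = 0 := by
    simp only [hM]
    rw [Finset.sum_sub_distrib, ← Finset.mul_sum, ← Finset.sum_mul]
    have e1 : ∑ a, Y a = 0 := hbe
    have e2 : ∑ a, X a = 0 := hal
    rw [e1, e2]
    ring
  have hMpq : 0 < M p q := by
    by_contra hcon
    push Not at hcon
    have h1 : ∀ a, a ≠ p → M p a ≤ 0 := by
      intro a ha
      have h2 := hq a (Finset.mem_erase.2 ⟨ha, Finset.mem_univ _⟩)
      have h3 : M p q / (X p ^ 2 + Y p ^ 2 - (X p * X q + Y p * Y q)) ≤ 0 :=
        div_nonpos_of_nonpos_of_nonneg hcon (hDpos q hqp).le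
      have h4 := h2.trans h3
      by_contra h5
      push Not at h5
      have := div_pos h5 (hDpos a ha)
      linarith
    have h2 : ∀ a ∈ Finset.univ, M p a ≤ 0 := by
      intro a _
      by_cases ha : a = p
      · subst ha
        simp only [hM]
        linarith
      · exact h1 a ha
    have h3 := (Finset.sum_eq_zero_iff_of_nonpos h2).1 hsumM q (Finset.mem_univ q)
    exact hMne p q hpq h3
  have hd : ((D.det2 p q : ℚ) : ℝ) ≠ 0 := by exact_mod_cast hA.det2_ne hpq
  -- all other vertices are on the same side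
  have hside : ∀ a, 0 ≤ M p q + M q a - M p a := by
    intro a
    by_cases ha : a = p
    · subst ha
      have : M q a = -M a q := by
        simp only [hM]
        ring
      have h2 : M a a = 0 := by
        simp only [hM]
        ring
      rw [this, h2]
      linarith
    have h1 := hq a (Finset.mem_erase.2 ⟨ha, Finset.mem_univ _⟩)
    rw [div_le_div_iff₀ (hDpos a ha) (hDpos q hqp)] at h1
    have hid : (X p ^ 2 + Y p ^ 2) * M q a =
        (X p * X q + Y p * Y q) * M p a - (X p * X a + Y p * Y a) * M p q := by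
      simp only [hM]
      ring
    have h2 : 0 ≤ (X p ^ 2 + Y p ^ 2) * (M p q + M q a - M p a) := by
      have e : (X p ^ 2 + Y p ^ 2) * (M p q + M q a - M p a) =
          M p q * (X p ^ 2 + Y p ^ 2 - (X p * X a + Y p * Y a)) -
            M p a * (X p ^ 2 + Y p ^ 2 - (X p * X q + Y p * Y q)) := by
        linear_combination hid
      rw [e]
      linarith
    have h3 : 0 < X p ^ 2 + Y p ^ 2 := by
      by_contra hcon
      push Not at hcon
      have g1 : X p = 0 := by nlinarith [sq_nonneg (X p), sq_nonneg (Y p)]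
      have g2 : Y p = 0 := by nlinarith [sq_nonneg (X p), sq_nonneg (Y p)]
      have : M p q = 0 := by
        simp only [hM]
        rw [g1, g2]
        ring
      exact hMne p q hpq this
    exact nonneg_of_mul_nonneg_right h2 h3
  -- the numbers x_a
  set A : Fin N → ℝ := fun a => ((D.det3 p q a : ℚ) : ℝ) / ((D.det2 p q : ℚ) : ℝ) with hAdef
  set x : Fin N → ℝ := fun a => A a / w a with hx
  have hxM : ∀ a, x a = (M p q + M q a - M p a) / M p q := by
    intro a
    have e1 := h0 p
    have e2 := h0 q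
    have e3 := h0 a
    have e4 : ((D.det2 a p : ℚ) : ℝ) = -((D.det2 p a : ℚ) : ℝ) := by
      rw [D.det2_symm a p]
      push_cast
      ring
    simp only [hx, hAdef]
    rw [hrel p q a, hMd, hMd, hMd, e4]
    field_simp
    ring
  have hxpos : ∀ a ∈ oth p q, 0 < x a := by
    intro a ha
    have h1 : 0 ≤ x a := by
      rw [hxM]
      exact div_nonneg (hside a) hMpq.le
    refine lt_of_le_of_ne h1 (Ne.symm ?_)
    have h2 : ((D.det3 p q a : ℚ) : ℝ) ≠ 0 := by
      exact_mod_cast hA.det3_ne hpq (mem_oth.1 ha).2.symm (mem_oth.1 ha).1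
    exact div_ne_zero (div_ne_zero h2 hd) (h0 a)
  have hcard : ((oth p q).card : ℝ) + 2 = N := by
    rw [card_oth hpq]
    push_cast [hN]
    ring
  have hxp : x p = 0 := by
    rw [hxM]
    have e1 : M q p = -M p q := by
      simp only [hM]
      ring
    have e2 : M p p = 0 := by
      simp only [hM]
      ring
    rw [e1, e2]
    simp
  have hxq : x q = 0 := by
    rw [hxM]
    have e2 : M q q = 0 := by
      simp only [hM]
      ring
    rw [e2]
    simp
  have hsum : ∑ a ∈ oth p q, x a = (oth p q).card + 2 := by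
    have e : ∑ a, x a = N := by
      have e1 : ∀ a, x a = 1 + (M q a - M p a) / M p q := by
        intro a
        rw [hxM]
        field_simp
        ring
      have e2 : ∑ a, M q a = 0 := by
        simp only [hM]
        rw [Finset.sum_sub_distrib, ← Finset.mul_sum, ← Finset.sum_mul]
        have e1 : ∑ a, Y a = 0 := hbe
        have e2 : ∑ a, X a = 0 := hal
        rw [e1, e2]
        ring
      simp only [e1]
      rw [Finset.sum_add_distrib, ← Finset.sum_div, Finset.sum_sub_distrib, e2, hsumM]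
      simp
    rw [split_sum' hpq, hxp, hxq, zero_add, zero_add] at e
    rw [hcard]
    exact e
  -- the bounds
  have hA1 : ∀ a ∈ oth p q, |A a| = x a * |w a| := by
    intro a ha
    have h1 := hxpos a ha
    have h2 : A a = x a * w a := by
      simp only [hx]
      rw [div_mul_cancel₀ _ (h0 a)]
    rw [h2, abs_mul, abs_of_pos h1]
  have hAabs : ∀ a, |A a| = |((D.det3 p q a : ℚ) : ℝ)| / |((D.det2 p q : ℚ) : ℝ)| := by
    intro a
    simp only [hAdef]
    rw [abs_div]
  have bound : ∀ (f : Fin N → ℚ) (s : Fin N),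
      (∀ a ∈ oth p q, |((f a : ℚ) : ℝ)| ≤ |((D.det3 p q a : ℚ) : ℝ)|) →
      |∑ a ∈ oth p q, ((f a : ℚ) : ℝ) / w a| = |((D.det2 p q : ℚ) : ℝ)| / |w s| →
      1 / |w s| ≤ N := by
    intro f s hf hs
    have hdp : 0 < |((D.det2 p q : ℚ) : ℝ)| := abs_pos.2 hd
    have h1 : 1 / |w s| = |∑ a ∈ oth p q, ((f a : ℚ) : ℝ) / w a| / |((D.det2 p q : ℚ) : ℝ)| := by
      rw [hs]
      have := abs_pos.2 (h0 s)
      field_simp
    rw [h1, div_le_iff₀ hdp]
    refine (Finset.abs_sum_le_sum_abs _ _).trans ?_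
    rw [← hcard, ← hsum, Finset.sum_mul]
    refine Finset.sum_le_sum fun a ha => ?_
    have h2 : x a * |((D.det2 p q : ℚ) : ℝ)| = |((D.det3 p q a : ℚ) : ℝ)| / |w a| := by
      have h3 := hA1 a ha
      rw [hAabs] at h3
      have h4 := abs_pos.2 (h0 a)
      field_simp at h3 ⊢
      linarith
    rw [h2, abs_div]
    exact div_le_div_of_nonneg_right (hf a ha) (abs_nonneg _)
  have s1 : ∑ a ∈ oth p q, ((D.det2 q a : ℚ) : ℝ) / w a = ((D.det2 p q : ℚ) : ℝ) / w p := by
    have h1 : ∑ a, ((D.det2 q a : ℚ) : ℝ) / w a = 0 := by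
      have e : ∀ a, ((D.det2 q a : ℚ) : ℝ) / w a = ((D.al q : ℚ) : ℝ) * Y a -
          ((D.be q : ℚ) : ℝ) * X a := by
        intro a
        simp only [hX, hY]
        unfold Dat.det2
        push_cast
        ring
      simp only [e]
      have e1 : ∑ a, Y a = 0 := hbe
      have e2 : ∑ a, X a = 0 := hal
      rw [Finset.sum_sub_distrib, ← Finset.mul_sum, ← Finset.mul_sum, e1, e2]
      ring
    rw [split_sum' hpq, det2_self, D.det2_symm q p] at h1
    push_cast at h1
    rw [zero_div, zero_add, neg_div] at h1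
    linarith
  have s2 : ∑ a ∈ oth p q, ((D.det2 a p : ℚ) : ℝ) / w a = ((D.det2 p q : ℚ) : ℝ) / w q := by
    have h1 : ∑ a, ((D.det2 a p : ℚ) : ℝ) / w a = 0 := by
      have e : ∀ a, ((D.det2 a p : ℚ) : ℝ) / w a = ((D.be p : ℚ) : ℝ) * X a -
          ((D.al p : ℚ) : ℝ) * Y a := by
        intro a
        simp only [hX, hY]
        unfold Dat.det2
        push_cast
        ring
      simp only [e]
      have e1 : ∑ a, Y a = 0 := hbe
      have e2 : ∑ a, X a = 0 := hal
      rw [Finset.sum_sub_distrib, ← Finset.mul_sum, ← Finset.mul_sum, e1, e2]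
      ring
    rw [split_sum' hpq, det2_self, D.det2_symm q p] at h1
    push_cast at h1
    rw [zero_div, zero_add, neg_div] at h1
    linarith
  have b1 : 1 / |w p| ≤ N := by
    refine bound (fun a => D.det2 q a) p (fun a ha => ?_) ?_
    · exact_mod_cast hA.le_det3 hpq (mem_oth.1 ha).2.symm (mem_oth.1 ha).1
    · rw [s1, abs_div]
  have b2 : 1 / |w q| ≤ N := by
    refine bound (fun a => D.det2 a p) q (fun a ha => ?_) ?_
    · exact_mod_cast hA.le_det3' hpq (mem_oth.1 ha).2.symm (mem_oth.1 ha).1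
    · rw [s2, abs_div]
  -- the product
  have hpe := prod_le_exp (oth p q) x hxpos hsum
  have hwp : 0 < |w p| := abs_pos.2 (h0 p)
  have hwq : 0 < |w q| := abs_pos.2 (h0 q)
  have hprod : ∏ a ∈ oth p q, (|((D.det3 p q a : ℚ) : ℝ)| / |((D.det2 p q : ℚ) : ℝ)|) =
      (∏ a ∈ oth p q, x a) * ∏ a ∈ oth p q, |w a| := by
    rw [← Finset.prod_mul_distrib]
    refine Finset.prod_congr rfl fun a ha => ?_
    rw [← hAabs, hA1 a ha]
  have hall : l * (|w p| * (|w q| * ∏ a ∈ oth p q, |w a|)) = 1 := by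
    rw [← hpr]
    unfold oth
    rw [Finset.mul_prod_erase (Finset.univ.erase p) (fun a => |w a|)
        (Finset.mem_erase.2 ⟨hpq.symm, Finset.mem_univ q⟩),
      Finset.mul_prod_erase Finset.univ (fun a => |w a|) (Finset.mem_univ p)]
  have hK1 := hK p q hpq
  have hlw : l * ∏ a ∈ oth p q, |w a| = 1 / |w p| * (1 / |w q|) := by
    field_simp
    linarith
  have h5 : l * ∏ a ∈ oth p q, (|((D.det3 p q a : ℚ) : ℝ)| / |((D.det2 p q : ℚ) : ℝ)|) ≤
      Real.exp 2 * ((N : ℝ) * N) := by
    rw [hprod]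
    calc l * ((∏ a ∈ oth p q, x a) * ∏ a ∈ oth p q, |w a|) =
        (∏ a ∈ oth p q, x a) * (l * ∏ a ∈ oth p q, |w a|) := by ring
      _ ≤ Real.exp 2 * (l * ∏ a ∈ oth p q, |w a|) :=
          mul_le_mul_of_nonneg_right hpe (mul_nonneg (by linarith)
            (Finset.prod_nonneg fun _ _ => abs_nonneg _))
      _ ≤ Real.exp 2 * ((N : ℝ) * N) := by
          rw [hlw]
          exact mul_le_mul_of_nonneg_left (mul_le_mul b1 b2 (by positivity) (by positivity))
            (Real.exp_pos 2).le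
  have h6 : Real.exp 2 < 8 := by
    have e : Real.exp 2 = Real.exp 1 * Real.exp 1 := by
      rw [← Real.exp_add]
      norm_num
    have h7 := Real.exp_one_lt_d9
    have h8 := Real.exp_pos 1
    rw [e]
    nlinarith
  have hNR : (0 : ℝ) < N := by
    have : 0 < N := by omega
    exact_mod_cast this
  have h9 : 0 < (N : ℝ) * N := by positivity
  nlinarith

/-- the values of the linear polynomials at a singular point: they do not exist -/
theorem core {σ : ℚ →+* ℂ} (hA : Adm D) (hN : 2 ≤ N)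
    (hK : ∀ p q, p ≠ q → 100 * (N : ℚ) ^ 2 ≤ ksize D p q) (z : Fin 2 → ℂ)
    (h1 : σ D.lam * ∏ p, D.val σ z p = 1) (ha : ∑ p, σ (D.al p) / D.val σ z p = 0)
    (hb : ∑ p, σ (D.be p) / D.val σ z p = 0) : False := by
  classical
  have hσ : ∀ x : ℚ, σ x = (((x : ℚ) : ℝ) : ℂ) := by
    intro x
    rw [eq_ratCast σ x]
    push_cast
    rfl
  have hP0 : ∏ p, D.val σ z p ≠ 0 := by
    intro h
    rw [h, mul_zero] at h1
    exact zero_ne_one h1
  have h0 : ∀ p, D.val σ z p ≠ 0 := fun p => Finset.prod_ne_zero_iff.1 hP0 p (Finset.mem_univ p)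
  -- the point is real
  have him : ∀ p, (D.val σ z p).im = ((D.al p : ℚ) : ℝ) * (z 0).im + ((D.be p : ℚ) : ℝ) * (z 1).im := by
    intro p
    unfold val
    rw [hσ, hσ, hσ]
    simp
  have hsum : ∑ p, (((D.val σ z p).im : ℝ) : ℂ) / D.val σ z p = 0 := by
    have e : ∀ p, (((D.val σ z p).im : ℝ) : ℂ) / D.val σ z p =
        (((z 0).im : ℝ) : ℂ) * (σ (D.al p) / D.val σ z p) +
          (((z 1).im : ℝ) : ℂ) * (σ (D.be p) / D.val σ z p) := by
      intro p
      rw [him p, hσ, hσ]
      push_cast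
      ring
    simp only [e]
    rw [Finset.sum_add_distrib, ← Finset.mul_sum, ← Finset.mul_sum, ha, hb, mul_zero, mul_zero,
      add_zero]
  have hreal : ∀ p, (D.val σ z p).im = 0 := by
    have h2 := congrArg Complex.im hsum
    rw [Complex.im_sum] at h2
    have e : ∀ p, ((((D.val σ z p).im : ℝ) : ℂ) / D.val σ z p).im =
        -((D.val σ z p).im ^ 2 / Complex.normSq (D.val σ z p)) := by
      intro p
      rw [Complex.div_im, Complex.ofReal_im, Complex.ofReal_re]
      ring
    simp only [e, Finset.sum_neg_distrib, Complex.zero_im, neg_eq_zero] at h2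
    intro p
    have h3 := (Finset.sum_eq_zero_iff_of_nonneg fun p _ =>
      div_nonneg (sq_nonneg (D.val σ z p).im) (Complex.normSq_nonneg (D.val σ z p))).1 h2 p
        (Finset.mem_univ p)
    rcases div_eq_zero_iff.1 h3 with h4 | h4
    · exact pow_eq_zero_iff two_ne_zero |>.1 h4
    · exact absurd (Complex.normSq_eq_zero.1 h4) (h0 p)
  set w : Fin N → ℝ := fun p => (D.val σ z p).re with hw
  have hval : ∀ p, D.val σ z p = (w p : ℂ) := by
    intro p
    apply Complex.ext
    · simp [hw]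
    · rw [hreal p]
      simp
  have hlR : ((|D.lam| : ℚ) : ℝ) * ∏ a, |w a| = 1 := by
    have h2 := congrArg (fun x => ‖x‖) h1
    simp only [norm_mul, norm_prod, norm_one, hval, hσ, Complex.norm_real, Real.norm_eq_abs] at h2
    push_cast
    exact h2
  have hl1 : 1 ≤ |D.lam| := one_le_abs_of_int hA.lam hA.lam0
  refine no_sing hA (l := ((|D.lam| : ℚ) : ℝ)) (by exact_mod_cast hl1) hN w ?_ hlR ?_ ?_ ?_ ?_
  · intro a h2
    apply h0 a
    rw [hval a, h2, Complex.ofReal_zero]
  · intro p q a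
    have h2 := val_rel (D := D) σ z p q a
    rw [hval, hval, hval, hσ, hσ, hσ, hσ] at h2
    exact_mod_cast h2
  · simp only [hval, hσ] at ha
    exact_mod_cast ha
  · simp only [hval, hσ] at hb
    exact_mod_cast hb
  · intro p q hpq
    have := hK p q hpq
    unfold ksize at this
    exact_mod_cast this

/-- the homogeneous linear polynomial -/
noncomputable def ln (D : Dat ℚ N) (p : Fin N) : MvPolynomial (Fin 3) ℚ :=
  C (D.al p) * X 0 + C (D.be p) * X 1 + C (D.ga p) * X 2

/-- its value -/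
noncomputable def lv (D : Dat ℚ N) (σ : ℚ →+* ℂ) (z : Fin 3 → ℂ) (p : Fin N) : ℂ :=
  σ (D.al p) * z 0 + σ (D.be p) * z 1 + σ (D.ga p) * z 2

theorem eval_ln (σ : ℚ →+* ℂ) (z : Fin 3 → ℂ) (p : Fin N) :
    eval₂Hom σ z (ln D p) = lv D σ z p := by
  unfold ln lv
  simp

theorem eval_pderiv_prod (σ : ℚ →+* ℂ) (z : Fin 3 → ℂ) (i : Fin 3) (v : Fin N → ℂ)
    (hv : ∀ p, eval₂Hom σ z (pderiv i (ln D p)) = v p) (h0 : ∀ p, lv D σ z p ≠ 0) :
    eval₂Hom σ z (pderiv i (∏ p, ln D p)) =
      (∏ p, lv D σ z p) * ∑ p, v p / lv D σ z p := by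
  classical
  have h : ∀ s : Finset (Fin N), eval₂Hom σ z (pderiv i (∏ p ∈ s, ln D p)) =
      (∏ p ∈ s, lv D σ z p) * ∑ p ∈ s, v p / lv D σ z p := by
    intro s
    induction s using Finset.induction_on with
    | empty => simp
    | insert a s ha ih =>
      rw [Finset.prod_insert ha, Finset.prod_insert ha, Finset.sum_insert ha, Derivation.leibniz,
        map_add, smul_eq_mul, smul_eq_mul, map_mul, map_mul, ih, hv, map_prod]
      simp only [eval_ln]
      have := h0 a
      field_simp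
      ring
  exact h Finset.univ

/-- the projective curve is smooth -/
theorem smooth {σ : ℚ →+* ℂ} (hA : Adm D) (hN : 2 ≤ N)
    (hK : ∀ p q, p ≠ q → 100 * (N : ℚ) ^ 2 ≤ ksize D p q) : SmoothCurve D σ := by
  classical
  intro z hz0 hz
  have hlam : σ D.lam ≠ 0 := (map_ne_zero σ).2 hA.lam0
  have hform : form D = C D.lam * ∏ p, ln D p - X 2 ^ N := rfl
  have hder : ∀ i : Fin 3, eval₂Hom σ z (pderiv i (form D)) =
      σ D.lam * eval₂Hom σ z (pderiv i (∏ p, ln D p)) -
        eval₂Hom σ z (pderiv i (X 2 ^ N : MvPolynomial (Fin 3) ℚ)) := by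
    intro i
    rw [hform, map_sub, pderiv_C_mul, map_sub, map_mul, eval₂Hom_C]
  have hX0 : eval₂Hom σ z (pderiv 0 (X 2 ^ N : MvPolynomial (Fin 3) ℚ)) = 0 := by
    rw [pderiv_pow, pderiv_X_of_ne (by decide), mul_zero, map_zero]
  have hX1 : eval₂Hom σ z (pderiv 1 (X 2 ^ N : MvPolynomial (Fin 3) ℚ)) = 0 := by
    rw [pderiv_pow, pderiv_X_of_ne (by decide), mul_zero, map_zero]
  have hp0 : ∀ p, eval₂Hom σ z (pderiv 0 (ln D p)) = σ (D.al p) := by
    intro p
    unfold ln
    simp
  have hp1 : ∀ p, eval₂Hom σ z (pderiv 1 (ln D p)) = σ (D.be p) := by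
    intro p
    unfold ln
    simp
  rw [hform, map_sub, map_mul, map_prod, eval₂Hom_C, map_pow, eval₂Hom_X', sub_eq_zero] at hz
  simp only [eval_ln] at hz
  by_cases h2 : z 2 = 0
  · -- a point at infinity
    rw [h2, zero_pow (by omega)] at hz
    obtain ⟨p, -, hp⟩ := Finset.prod_eq_zero_iff.1 ((mul_eq_zero.1 hz).resolve_left hlam)
    refine ⟨1, ?_⟩
    rw [hder, hX1, sub_zero, ← Finset.mul_prod_erase _ _ (Finset.mem_univ p), Derivation.leibniz,
      map_add, smul_eq_mul, smul_eq_mul, map_mul, map_mul, eval_ln, hp, zero_mul, zero_add, hp1,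
      hA.be, map_one, mul_one, map_prod]
    refine mul_ne_zero hlam (Finset.prod_ne_zero_iff.2 fun a ha => ?_)
    rw [eval_ln]
    intro h
    have hap : a ≠ p := (Finset.mem_erase.1 ha).1
    unfold lv at hp h
    rw [h2, mul_zero, add_zero, hA.be, map_one, one_mul] at hp h
    have h3 : (σ (D.al a) - σ (D.al p)) * z 0 = 0 := by
      linear_combination h - hp
    rw [← map_sub] at h3
    have h4 : z 0 = 0 := (mul_eq_zero.1 h3).resolve_left
      ((map_ne_zero σ).2 (sub_ne_zero.2 (hA.ne a p hap)))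
    have h5 : z 1 = 0 := by
      rw [h4, mul_zero, zero_add] at hp
      exact hp
    apply hz0
    funext i
    fin_cases i
    · exact h4
    · exact h5
    · exact h2
  · by_contra hcon
    push Not at hcon
    have hprod : σ D.lam * ∏ p, lv D σ z p ≠ 0 := by
      rw [hz]
      exact pow_ne_zero _ h2
    have hP : ∏ p, lv D σ z p ≠ 0 := right_ne_zero_of_mul hprod
    have h0 : ∀ p, lv D σ z p ≠ 0 := fun p => Finset.prod_ne_zero_iff.1 hP p (Finset.mem_univ p)
    have key : ∀ (i : Fin 3) (v : Fin N → ℂ), (∀ p, eval₂Hom σ z (pderiv i (ln D p)) = v p) →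
        eval₂Hom σ z (pderiv i (X 2 ^ N : MvPolynomial (Fin 3) ℚ)) = 0 →
        ∑ p, v p / lv D σ z p = 0 := by
      intro i v hv hX
      have h3 := hcon i
      rw [hder, hX, sub_zero, eval_pderiv_prod σ z i v hv h0] at h3
      exact (mul_eq_zero.1 ((mul_eq_zero.1 h3).resolve_left hlam)).resolve_left hP
    have ha := key 0 _ hp0 hX0
    have hb := key 1 _ hp1 hX1
    set z' : Fin 2 → ℂ := ![z 0 / z 2, z 1 / z 2] with hz'
    have hval : ∀ p, D.val σ z' p = lv D σ z p / z 2 := by
      intro p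
      unfold val lv
      simp only [hz', Matrix.cons_val_zero, Matrix.cons_val_one]
      field_simp
    refine core (σ := σ) hA hN hK z' ?_ ?_ ?_
    · simp only [hval]
      rw [Finset.prod_div_distrib, Finset.prod_const, Finset.card_univ, Fintype.card_fin,
        ← mul_div_assoc, hz, div_self (pow_ne_zero _ h2)]
    · have e : ∀ p, σ (D.al p) / D.val σ z' p = z 2 * (σ (D.al p) / lv D σ z p) := by
        intro p
        rw [hval]
        field_simp
      simp only [e]
      rw [← Finset.mul_sum, ha, mul_zero]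
    · have e : ∀ p, σ (D.be p) / D.val σ z' p = z 2 * (σ (D.be p) / lv D σ z p) := by
        intro p
        rw [hval]
        field_simp
      simp only [e]
      rw [← Finset.mul_sum, hb, mul_zero]

end Pool.Agent.W5h29.PC
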